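import Pool.Agent.Lib.MP_b9166b_al.Kegel

/-!
# Simple groups which are locally products of alternating groups

Let `G` be a simple group such that every finite subset of `G` lies in a subgroup which is a direct
product `A × K`, where `A` is a direct product of finitely many finite alternating groups, `K` is a
finite group, and the projection to `A` is injective on the given subset.  If the centralizer of some
element of `G` is finitary linear, then `G` is a group of finitary permutations of an infinite set;
in particular `G` is finitary linear.
-/

set_option autoImplicit false

namespace Pool.Agent.Lib.MP_b9166b_al.AltCentralizer

open Pool.Agent.Lib.MP_b9166b_al

/-- If a simple group `G` is locally a direct product of finitely many alternating groups and a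
finite group, with injective projection of the given finite subset to the product of the alternating
groups, and if some element of `G` has a finitary linear centralizer, then `G` is a group of finitary
permutations of an infinite set, and it is finitary linear. -/
theorem result (G : Type) [Group G] (hs : IsSimpleGroup G) (hG : LocAltProd G) (x : G)
    (hx : FinLin (Subgroup.centralizer ({x} : Set G))) : FinPerm G ∧ FinLin G :=
  have h := finPerm_of_centralizer hs (hG.locAlt hs) x hx
  ⟨h, h.finLin⟩

end Pool.Agent.Lib.MP_b9166b_al.AltCentralizer
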