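import Mathlib

/-!
# Degrees of linear maps: rank (1 - f)
-/

set_option autoImplicit false

namespace Pool.Agent.Lib.MP_b9166b_al

variable {F V : Type} [Field F] [AddCommGroup V] [Module F V]

/-- `rank (1 - f) ≤ d` -/
def Deg (f : V →ₗ[F] V) (d : ℕ) : Prop :=
  FiniteDimensional F (LinearMap.range (1 - f)) ∧
    Module.finrank F (LinearMap.range (1 - f)) ≤ d

theorem Deg.of_le {f g : V →ₗ[F] V} {d : ℕ} (h : Deg f d)
    (u : V →ₗ[F] V) (hle : LinearMap.range (1 - g) ≤ (LinearMap.range (1 - f)).map u) :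
    Deg g d := by
  obtain ⟨h1, h2⟩ := h
  refine ⟨Submodule.finiteDimensional_of_le hle, ?_⟩
  exact (Submodule.finrank_mono hle).trans ((Submodule.finrank_map_le u _).trans h2)

theorem Deg.mul {f g : V →ₗ[F] V} {d d' : ℕ} (hf : Deg f d) (hg : Deg g d') :
    Deg (f * g) (d + d') := by
  obtain ⟨h1, h2⟩ := hf
  obtain ⟨h3, h4⟩ := hg
  have hle : LinearMap.range (1 - f * g) ≤ LinearMap.range (1 - f) ⊔ LinearMap.range (1 - g) := by
    rintro v ⟨w, rfl⟩
    have : (1 - f * g) w = (1 - f) (g w) + (1 - g) w := by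
      simp only [LinearMap.sub_apply, Module.End.one_apply, Module.End.mul_apply]
      abel
    rw [this]
    exact Submodule.add_mem_sup (LinearMap.mem_range_self _ _) (LinearMap.mem_range_self _ _)
  refine ⟨Submodule.finiteDimensional_of_le hle, ?_⟩
  refine (Submodule.finrank_mono hle).trans ?_
  refine (Submodule.finrank_add_le_finrank_add_finrank _ _).trans ?_
  omega

theorem Deg.inv {f : (V →ₗ[F] V)ˣ} {d : ℕ} (hf : Deg f.val d) : Deg (f⁻¹).val d := by
  refine hf.of_le (f⁻¹).val ?_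
  rintro v ⟨w, rfl⟩
  refine ⟨(1 - f.val) (-w), LinearMap.mem_range_self _ _, ?_⟩
  have h1 : (f⁻¹).val (f.val w) = w := by
    rw [← Module.End.mul_apply, Units.inv_mul, Module.End.one_apply]
  simp only [LinearMap.sub_apply, Module.End.one_apply, map_neg, map_sub, h1]
  abel

theorem Deg.conj {f : V →ₗ[F] V} {d : ℕ} (hf : Deg f d) (u : (V →ₗ[F] V)ˣ) :
    Deg (u.val * f * (u⁻¹).val) d := by
  refine hf.of_le u.val ?_
  rintro v ⟨w, rfl⟩
  refine ⟨(1 - f) ((u⁻¹).val w), LinearMap.mem_range_self _ _, ?_⟩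
  have h1 : u.val ((u⁻¹).val w) = w := by
    rw [← Module.End.mul_apply, Units.mul_inv, Module.End.one_apply]
  simp only [LinearMap.sub_apply, Module.End.one_apply, map_sub, h1, Module.End.mul_apply]

theorem Deg.comm {f g : (V →ₗ[F] V)ˣ} {d : ℕ} (hf : Deg f.val d) :
    Deg (f * g * f⁻¹ * g⁻¹).val (2 * d) := by
  have h1 := hf.mul (hf.inv.conj g)
  have h2 : (f * g * f⁻¹ * g⁻¹).val = f.val * (g.val * (f⁻¹).val * (g⁻¹).val) := by
    simp only [Units.val_mul, mul_assoc]
  rw [h2, two_mul]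
  exact h1

end Pool.Agent.Lib.MP_b9166b_al
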