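import Mathlib

/-!
# Ultraproducts of permutations with bounded support

A group which is, along an ultrafilter, a group of permutations with bounded supports is finitary
linear.
-/

set_option autoImplicit false

namespace Pool.Agent.Lib.MP_b9166b_al

open Equiv Filter

/-- The image of `1 - f` has finite dimension. -/
def FinMap {K V : Type} [Field K] [AddCommGroup V] [Module K V] (f : V →ₗ[K] V) : Prop :=
  FiniteDimensional K (LinearMap.range (1 - f))

/-- `G` acts faithfully on the `K`-space `V`, in such a way that `V (1 - g)` has finite dimension for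
all `g`. -/
def FinRep (K V G : Type) [Field K] [AddCommGroup V] [Module K V] [Group G] : Prop :=
  ∃ ρ : G →* (V →ₗ[K] V)ˣ, Function.Injective ρ ∧ ∀ h : G, FinMap (ρ h).val

/-- `G` is finitary linear: it acts faithfully on a vector space of infinite dimension in such a way
that `V (1 - g)` has finite dimension for all `g`. -/
def FinLin (G : Type) [Group G] : Prop :=
  ∃ (K : Type) (_ : Field K) (V : Type) (_ : AddCommGroup V) (_ : Module K V),
    ¬ FiniteDimensional K V ∧ FinRep K V G

/-- a group of finitary permutations is finitary linear -/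
theorem finLin_of_perm {G : Type} [Group G] {Ω : Type} [Infinite Ω] (P : G →* Perm Ω)
    (hP : Function.Injective P) (hfin : ∀ g, {ω | P g ω ≠ ω}.Finite) : FinLin G := by
  classical
  set R : G →* Module.End ℚ (Ω →₀ ℚ) :=
    { toFun := fun g => Finsupp.lmapDomain ℚ ℚ (P g)
      map_one' := by
        rw [map_one]
        exact Finsupp.lmapDomain_id ℚ ℚ
      map_mul' := fun a b => by
        rw [map_mul, Perm.coe_mul]
        exact Finsupp.lmapDomain_comp ℚ ℚ _ _ } with hR
  have hRs : ∀ (g : G) (ω : Ω) (c : ℚ), R g (Finsupp.single ω c) = Finsupp.single (P g ω) c := by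
    intro g ω c
    exact Finsupp.mapDomain_single
  refine ⟨ℚ, inferInstance, Ω →₀ ℚ, inferInstance, inferInstance, ?_, ⟨R.toHomUnits, ?_, ?_⟩⟩
  · intro h
    have := Module.Finite.finite_basis (Finsupp.basisSingleOne (R := ℚ) (ι := Ω))
    exact not_finite Ω
  · rw [injective_iff_map_eq_one]
    intro g hg
    apply hP
    rw [map_one]
    ext ω
    have h1 : R g (Finsupp.single ω 1) = Finsupp.single ω 1 := by
      have : R g = 1 := by
        have h2 := congrArg Units.val hg
        exact h2
      rw [this]
      rfl
    rw [hRs] at h1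
    have h2 := (Finsupp.single_eq_single_iff _ _ _ _).1 h1
    rcases h2 with h2 | h2
    · exact h2.1
    · exact absurd h2.1 one_ne_zero
  · intro g
    set S : Set (Ω →₀ ℚ) :=
      (fun ω => Finsupp.single ω (1 : ℚ) - Finsupp.single (P g ω) 1) '' {ω | P g ω ≠ ω} with hS
    have hSf : S.Finite := (hfin g).image _
    have h1 : LinearMap.range (1 - R g) ≤ Submodule.span ℚ S := by
      rintro v ⟨w, rfl⟩
      induction w using Finsupp.induction_linear with
      | zero => simp
      | add f g hf hg =>
        rw [map_add]
        exact Submodule.add_mem _ hf hg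
      | single ω c =>
        rw [LinearMap.sub_apply, Module.End.one_apply, hRs]
        by_cases hω : P g ω = ω
        · rw [hω, sub_self]
          exact Submodule.zero_mem _
        · have h2 : Finsupp.single ω c - Finsupp.single (P g ω) c =
              c • (Finsupp.single ω (1 : ℚ) - Finsupp.single (P g ω) 1) := by
            rw [smul_sub, Finsupp.smul_single, Finsupp.smul_single, smul_eq_mul, mul_one]
          rw [h2]
          exact Submodule.smul_mem _ _ (Submodule.subset_span ⟨ω, hω, rfl⟩)
    have := FiniteDimensional.span_of_finite ℚ hSf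
    exact Submodule.finiteDimensional_of_le h1

/-- `G` is a group of finitary permutations of an infinite set -/
def FinPerm (G : Type) [Group G] : Prop :=
  ∃ (Ω : Type) (_ : Infinite Ω) (P : G →* Perm Ω), Function.Injective P ∧
    ∀ g, {ω | P g ω ≠ ω}.Finite

theorem FinPerm.finLin {G : Type} [Group G] (h : FinPerm G) : FinLin G := by
  obtain ⟨Ω, _, P, hP, hf⟩ := h
  exact finLin_of_perm P hP hf

/-- **Ultraproducts of permutations of bounded supports.** -/
theorem finPerm_of_family {I : Type} {G : Type} [Group G] (U : Ultrafilter I)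
    (q : I → G → Perm ℕ)
    (hmul : ∀ g h, ∀ᶠ i in (U : Filter I), q i (g * h) = q i g * q i h)
    (hne : ∀ g, g ≠ 1 → ∀ᶠ i in (U : Filter I), q i g ≠ 1)
    (hbd : ∀ g, ∃ B : ℕ, ∀ᶠ i in (U : Filter I),
      ∃ s : Finset ℕ, s.card ≤ B ∧ ∀ n ∉ s, q i g n = n) : FinPerm G := by
  classical
  set act : G → Germ (U : Filter I) ℕ → Germ (U : Filter I) ℕ := fun g =>
    Germ.map' (fun (f : I → ℕ) (i : I) => q i g (f i)) (by
      intro f f' h
      filter_upwards [h] with i hi
      rw [hi]) with hact
  have hact1 : ∀ (g : G) (f : I → ℕ), act g (f : Germ (U : Filter I) ℕ) =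
      ((fun i => q i g (f i) : I → ℕ) : Germ (U : Filter I) ℕ) := fun g f => rfl
  set A : G →* Function.End (Germ (U : Filter I) ℕ) :=
    { toFun := act
      map_one' := by
        funext ω
        induction ω using Germ.inductionOn with
        | _ f =>
        rw [hact1]
        refine Germ.coe_eq.2 ?_
        filter_upwards [hmul 1 1] with i hi
        have : q i 1 = 1 := by
          rw [mul_one] at hi
          exact left_eq_mul.1 hi
        rw [this, Perm.one_apply]
      map_mul' := fun a b => by
        funext ω
        induction ω using Germ.inductionOn with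
        | _ f =>
        change act (a * b) f = act a (act b f)
        rw [hact1, hact1, hact1]
        refine Germ.coe_eq.2 ?_
        filter_upwards [hmul a b] with i hi
        rw [hi, Perm.mul_apply] } with hA
  set P : G →* Perm (Germ (U : Filter I) ℕ) := MonoidHom.toHomPerm A with hP
  have hPa : ∀ (g : G) (f : I → ℕ), P g (f : Germ (U : Filter I) ℕ) =
      ((fun i => q i g (f i) : I → ℕ) : Germ (U : Filter I) ℕ) := fun g f => rfl
  have hinf : Infinite (Germ (U : Filter I) ℕ) := by
    refine Infinite.of_injective (fun n : ℕ => ((fun _ => n : I → ℕ) : Germ (U : Filter I) ℕ)) ?_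
    intro n m h
    have h1 := Germ.coe_eq.1 h
    obtain ⟨i, hi⟩ := h1.exists
    exact hi
  refine ⟨Germ (U : Filter I) ℕ, hinf, P, ?_, ?_⟩
  · rw [injective_iff_map_eq_one]
    intro g hg
    by_contra hg1
    have h1 : ∀ i, ∃ n, q i g ≠ 1 → q i g n ≠ n := by
      intro i
      by_cases h : q i g = 1
      · exact ⟨0, fun h' => absurd h h'⟩
      · by_contra hc
        push Not at hc
        apply h
        ext n
        exact (hc n).2
    choose f hf using h1
    have h2 : P g (f : Germ (U : Filter I) ℕ) = f := by rw [hg, Perm.one_apply]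
    rw [hPa] at h2
    have h3 := Germ.coe_eq.1 h2
    obtain ⟨i, hi1, hi2⟩ := (h3.and (hne g hg1)).exists
    exact hf i hi2 hi1
  · intro g
    obtain ⟨B, hB⟩ := hbd g
    have h1 : ∀ i, ∃ s : Finset ℕ, (∃ s : Finset ℕ, s.card ≤ B ∧ ∀ n ∉ s, q i g n = n) →
        s.card ≤ B ∧ ∀ n ∉ s, q i g n = n := by
      intro i
      by_cases h : ∃ s : Finset ℕ, s.card ≤ B ∧ ∀ n ∉ s, q i g n = n
      · obtain ⟨s, hs⟩ := h
        exact ⟨s, fun _ => hs⟩
      · exact ⟨∅, fun h' => absurd h' h⟩
    choose s hs using h1
    set e : Fin B → I → ℕ := fun k i =>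
      if h : (k : ℕ) < (s i).card then ((s i).equivFin.symm ⟨k, h⟩ : ℕ) else 0 with he
    refine (Set.finite_range fun k : Fin B => (e k : Germ (U : Filter I) ℕ)).subset ?_
    intro ω hω
    induction ω using Germ.inductionOn with
    | _ f =>
    rw [Set.mem_ofPred_eq, hPa] at hω
    have h2 : ∀ᶠ i in (U : Filter I), q i g (f i) ≠ f i := by
      rw [Ultrafilter.eventually_not]
      intro h
      exact hω (Germ.coe_eq.2 h)
    have h3 : ∀ᶠ i in (U : Filter I), ∃ k : Fin B, f i = e k i := by
      filter_upwards [h2, hB] with i hi1 hi2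
      obtain ⟨hc, hn⟩ := hs i hi2
      have h4 : f i ∈ s i := by
        by_contra h
        exact hi1 (hn _ h)
      set k := (s i).equivFin ⟨f i, h4⟩ with hk
      refine ⟨⟨k, k.2.trans_le hc⟩, ?_⟩
      rw [he]
      simp only
      rw [dif_pos k.2]
      have : (⟨(k : ℕ), k.2⟩ : Fin (s i).card) = k := rfl
      rw [this, hk, Equiv.symm_apply_apply]
    by_contra hcon
    have h5 : ∀ k : Fin B, ∀ᶠ i in (U : Filter I), f i ≠ e k i := by
      intro k
      rw [Ultrafilter.eventually_not]
      intro h
      apply hcon
      exact ⟨k, (Germ.coe_eq.2 h).symm⟩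
    have h6 := Filter.eventually_all.2 h5
    obtain ⟨i, hi1, k, hi2⟩ := (h6.and h3).exists
    exact hi1 k hi2

end Pool.Agent.Lib.MP_b9166b_al
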