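import Mathlib

/-!
# Splitting a permutation over the orbits of a group
-/

set_option autoImplicit false

namespace Pool.Agent.Lib.MP_b9166b_al

open Equiv

variable {Q : Type} [Group Q] {n : ℕ}

/-- the orbit equivalence relation of `π : Q → Sym(n)` -/
def orbS (π : Q →* Perm (Fin n)) : Setoid (Fin n) where
  r x y := ∃ g, π g x = y
  iseqv :=
    { refl := fun x => ⟨1, by simp⟩
      symm := fun {x y} ⟨g, hg⟩ => ⟨g⁻¹, by rw [map_inv, ← hg]; simp⟩
      trans := fun {x y z} ⟨g, hg⟩ ⟨h, hh⟩ => ⟨h * g, by rw [map_mul, Perm.mul_apply, hg, hh]⟩ }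

/-- the class of a point -/
def cls (π : Q →* Perm (Fin n)) (x : Fin n) : Quotient (orbS π) := Quotient.mk (orbS π) x

theorem cls_apply (π : Q →* Perm (Fin n)) (g : Q) (x : Fin n) : cls π (π g x) = cls π x :=
  Quotient.sound ((orbS π).symm ⟨g, rfl⟩)

theorem cls_pow (π : Q →* Perm (Fin n)) (g : Q) (k : ℕ) (x : Fin n) :
    cls π ((π g ^ k) x) = cls π x := by
  rw [← map_pow]
  exact cls_apply π _ x

open Classical in
/-- `g` on the orbits in `I`, the identity on the others -/
noncomputable def rI (π : Q →* Perm (Fin n)) (I : Set (Quotient (orbS π))) : Q →* Perm (Fin n) :=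
  MonoidHom.toHomPerm
    { toFun := fun g x => if cls π x ∈ I then π g x else x
      map_one' := by
        funext x
        split_ifs
        · rw [map_one, Perm.one_apply]
          rfl
        · rfl
      map_mul' := fun g h => by
        funext x
        change (if cls π x ∈ I then π (g * h) x else x) =
          (if cls π (if cls π x ∈ I then π h x else x) ∈ I
            then π g (if cls π x ∈ I then π h x else x) else (if cls π x ∈ I then π h x else x))
        by_cases hx : cls π x ∈ I
        · rw [if_pos hx, if_pos hx, cls_apply, if_pos hx, map_mul, Perm.mul_apply]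
        · rw [if_neg hx, if_neg hx, if_neg hx] }

open Classical in
theorem rI_apply (π : Q →* Perm (Fin n)) (I : Set (Quotient (orbS π))) (g : Q) (x : Fin n) :
    rI π I g x = if cls π x ∈ I then π g x else x := rfl

theorem rI_conj (π : Q →* Perm (Fin n)) (I : Set (Quotient (orbS π))) (g h : Q) :
    π h * rI π I g * (π h)⁻¹ = rI π I (h * g * h⁻¹) := by
  classical
  ext1 x
  rw [Perm.mul_apply, Perm.mul_apply, rI_apply, rI_apply, ← map_inv, cls_apply]
  split_ifs
  · rw [map_mul, map_mul, Perm.mul_apply, Perm.mul_apply]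
  · rw [map_inv]
    simp

/-- `γ ^ e(orbit)` on each orbit -/
noncomputable def R (π : Q →* Perm (Fin n)) {r : ℕ} [NeZero r] (γ : Q) (hγ : γ ^ r = 1) :
    Multiplicative (Quotient (orbS π) → ZMod r) →* Perm (Fin n) :=
  MonoidHom.toHomPerm
    { toFun := fun e x => (π γ ^ (e.toAdd (cls π x)).val) x
      map_one' := by
        funext x
        simp
        rfl
      map_mul' := fun e e' => by
        funext x
        change (π γ ^ ((e * e').toAdd (cls π x)).val) x =
          (π γ ^ (e.toAdd (cls π ((π γ ^ (e'.toAdd (cls π x)).val) x))).val)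
            ((π γ ^ (e'.toAdd (cls π x)).val) x)
        rw [cls_pow, ← Perm.mul_apply, ← pow_add, toAdd_mul, Pi.add_apply, ZMod.val_add]
        congr 1
        have h1 : π γ ^ r = 1 := by rw [← map_pow, hγ, map_one]
        exact (pow_eq_pow_mod _ h1).symm }

theorem R_apply (π : Q →* Perm (Fin n)) {r : ℕ} [NeZero r] (γ : Q) (hγ : γ ^ r = 1)
    (e : Multiplicative (Quotient (orbS π) → ZMod r)) (x : Fin n) :
    R π γ hγ e x = (π γ ^ (e.toAdd (cls π x)).val) x := rfl

theorem R_eq (π : Q →* Perm (Fin n)) {r : ℕ} [NeZero r] (h23 : r = 2 ∨ r = 3) (γ : Q)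
    (hγ : γ ^ r = 1) (e : Multiplicative (Quotient (orbS π) → ZMod r)) :
    R π γ hγ e = rI π {q | 1 ≤ (e.toAdd q).val} γ * rI π {q | 2 ≤ (e.toAdd q).val} γ := by
  classical
  ext1 x
  rw [R_apply, Perm.mul_apply, rI_apply, rI_apply]
  simp only [Set.mem_ofPred_eq]
  have hlt := ZMod.val_lt (e.toAdd (cls π x))
  have h3 : (e.toAdd (cls π x)).val < 3 := by omega
  set k := (e.toAdd (cls π x)).val with hk
  interval_cases k
  · simp [← hk]
  · simp [← hk]
  · simp [← hk, cls_apply, pow_two]

/-- many orbits meet a large set -/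
theorem exists_orbits (π : Q →* Perm (Fin n)) [Finite Q] (A : Finset (Fin n)) (s : ℕ)
    (hA : s * Nat.card Q < A.card) : ∃ O : Finset (Quotient (orbS π)), O.card = s ∧
      ∀ q ∈ O, ∃ x ∈ A, cls π x = q := by
  classical
  have : Fintype Q := Fintype.ofFinite Q
  have hfib : ∀ q ∈ A.image (cls π), (A.filter fun x => cls π x = q).card ≤ Nat.card Q := by
    intro q _
    obtain ⟨y, rfl⟩ := Quotient.exists_rep q
    calc (A.filter fun x => cls π x = Quotient.mk (orbS π) y).card
        ≤ ((Finset.univ : Finset Q).image fun g => π g y).card := by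
          apply Finset.card_le_card
          intro x hx
          rw [Finset.mem_filter] at hx
          have h1 : (orbS π).r y x := (orbS π).symm (Quotient.exact hx.2)
          obtain ⟨g, hg⟩ := h1
          rw [Finset.mem_image]
          exact ⟨g, Finset.mem_univ _, hg⟩
      _ ≤ Nat.card Q := by
          refine Finset.card_image_le.trans ?_
          rw [Finset.card_univ, Nat.card_eq_fintype_card]
  have h1 := Finset.card_le_mul_card_image A (Nat.card Q) hfib
  have h2 : s < (A.image (cls π)).card := by
    by_contra hc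
    push Not at hc
    have := Nat.mul_le_mul_left (Nat.card Q) hc
    rw [mul_comm] at hA
    omega
  obtain ⟨O, hO, hOs⟩ := Finset.exists_subset_card_eq h2.le
  refine ⟨O, hOs, fun q hq => ?_⟩
  obtain ⟨x, hx, hxq⟩ := Finset.mem_image.1 (hO hq)
  exact ⟨x, hx, hxq⟩

end Pool.Agent.Lib.MP_b9166b_al
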