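import Mathlib

/-!
# Permutations commuting with a permutation of bounded order

If `u` is a permutation of `n > 4 m²` points with `u^m = 1`, then the centralizer of `u` in the
alternating group contains `a, b` with `b³ = 1` and `[a,b]` of order `r`, for `r = 2` and `r = 3`.
-/

set_option autoImplicit false

namespace Pool.Agent.Lib.MP_b9166b_al

open Equiv

/-- five cycles of the same length -/
theorem exists_five {n m : ℕ} (hm : 0 < m) (hn : 4 * m * m < n) {u : Perm (Fin n)}
    (hu : u ^ m = 1) : ∃ (l : ℕ) (ω : Fin 5 → Fin n), 0 < l ∧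
      (∀ i, Function.minimalPeriod u (ω i) = l) ∧
      ∀ i j, u.SameCycle (ω i) (ω j) → i = j := by
  classical
  set s : Setoid (Fin n) := Perm.SameCycle.setoid u with hs
  have hper : ∀ x : Fin n, Function.IsPeriodicPt u m x := by
    intro x
    unfold Function.IsPeriodicPt Function.IsFixedPt
    rw [Perm.iterate_eq_pow, hu, Perm.one_apply]
  have hfib : ∀ q : Quotient s, (Finset.univ.filter fun x : Fin n =>
      (Quotient.mk s x) = q).card ≤ m := by
    intro q
    obtain ⟨y, rfl⟩ := Quotient.exists_rep q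
    calc (Finset.univ.filter fun x : Fin n => (Quotient.mk s x) = Quotient.mk s y).card
        ≤ ((Finset.range m).image fun k => (u ^ k) y).card := by
          apply Finset.card_le_card
          intro x hx
          rw [Finset.mem_filter] at hx
          have h1 : u.SameCycle y x := (Quotient.exact hx.2).symm
          obtain ⟨k, hk⟩ := h1
          rw [Finset.mem_image]
          refine ⟨(k % m).toNat, ?_, ?_⟩
          · rw [Finset.mem_range]
            have h2 := Int.emod_lt_of_pos k (by exact_mod_cast hm : (0 : ℤ) < m)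
            have h3 := Int.emod_nonneg k (by exact_mod_cast hm.ne' : (m : ℤ) ≠ 0)
            omega
          · rw [← hk]
            have h3 := Int.emod_nonneg k (by exact_mod_cast hm.ne' : (m : ℤ) ≠ 0)
            have h4 : u ^ ((k % m).toNat) = u ^ (k % (m : ℤ)) := by
              rw [← zpow_natCast, Int.toNat_of_nonneg h3]
            have h5 : u ^ (m : ℤ) = 1 := by rw [zpow_natCast, hu]
            have h6 : u ^ k = u ^ (k % (m : ℤ)) := by
              conv_lhs => rw [← Int.emod_add_mul_ediv k m]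
              rw [zpow_add, zpow_mul, h5, one_zpow, mul_one]
            change (u ^ ((k % m).toNat)) y = (u ^ k) y
            rw [h4, h6]
      _ ≤ m := by
          refine Finset.card_image_le.trans ?_
          rw [Finset.card_range]
  have hQ : m * 4 < Fintype.card (Quotient s) := by
    have h1 := Finset.card_le_mul_card_image (f := fun x : Fin n => Quotient.mk s x)
      (Finset.univ : Finset (Fin n)) m (fun q _ => hfib q)
    have h2 : (Finset.image (fun x : Fin n => Quotient.mk s x) Finset.univ).card ≤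
        Fintype.card (Quotient s) := Finset.card_le_univ _
    rw [Finset.card_univ, Fintype.card_fin] at h1
    have h3 : 4 * m * m < m * Fintype.card (Quotient s) :=
      hn.trans_le (h1.trans (Nat.mul_le_mul_left m h2))
    have h4 : m * (m * 4) < m * Fintype.card (Quotient s) := by
      calc m * (m * 4) = 4 * m * m := by ring
        _ < _ := h3
    exact Nat.lt_of_mul_lt_mul_left h4
  obtain ⟨l, hl, hcard⟩ := Finset.exists_lt_card_fiber_of_mul_lt_card_of_maps_to
    (s := (Finset.univ : Finset (Quotient s))) (t := Finset.Icc 1 m) (n := 4)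
    (f := fun q => Function.minimalPeriod u q.out)
    (fun q _ => by
      rw [Finset.mem_Icc]
      exact ⟨(hper _).minimalPeriod_pos hm, (hper _).minimalPeriod_le hm⟩)
    (by
      rw [Nat.card_Icc, Finset.card_univ]
      simpa using hQ)
  rw [Finset.mem_Icc] at hl
  set A := Finset.univ.filter (fun q : Quotient s => Function.minimalPeriod u q.out = l) with hA
  have hne : Nonempty (Fin 5 ↪ A) := by
    apply Function.Embedding.nonempty_of_card_le
    rw [Fintype.card_fin, Fintype.card_coe]
    exact hcard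
  obtain ⟨e⟩ := hne
  refine ⟨l, fun i => (e i).1.out, by omega, fun i => ?_, fun i j hij => ?_⟩
  · exact (Finset.mem_filter.1 (e i).2).2
  · have h1 : (e i).1 = (e j).1 := by
      rw [← Quotient.out_eq (e i).1, ← Quotient.out_eq (e j).1]
      exact Quotient.sound hij
    exact e.injective (Subtype.ext h1)

section theta

variable {n l : ℕ} [NeZero l] {u : Perm (Fin n)} {ω : Fin 5 → Fin n}

/-- the points of the five cycles -/
def iota (u : Perm (Fin n)) (ω : Fin 5 → Fin n)
    (hl : ∀ i, Function.minimalPeriod u (ω i) = l)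
    (hω : ∀ i j, u.SameCycle (ω i) (ω j) → i = j) : Fin 5 × ZMod l ↪ Fin n where
  toFun p := (u ^ p.2.val) (ω p.1)
  inj' := by
    rintro ⟨i, t⟩ ⟨j, t'⟩ h
    simp only at h
    have h1 : i = j := by
      apply hω
      have h2 : u.SameCycle (ω i) ((u ^ t.val) (ω i)) := ⟨t.val, by rw [zpow_natCast]⟩
      have h3 : u.SameCycle (ω j) ((u ^ t'.val) (ω j)) := ⟨t'.val, by rw [zpow_natCast]⟩
      rw [h] at h2
      exact h2.trans h3.symm
    subst h1
    have h4 := Function.iterate_injOn_Iio_minimalPeriod (f := u) (x := ω i)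
    have h5 : t.val = t'.val := by
      apply h4
      · rw [Set.mem_Iio, hl]
        exact ZMod.val_lt t
      · rw [Set.mem_Iio, hl]
        exact ZMod.val_lt t'
      · simp only
        rw [Perm.iterate_eq_pow, Perm.iterate_eq_pow]
        exact h
    have h6 : t = t' := ZMod.val_injective l h5
    rw [h6]

theorem iota_apply (hl : ∀ i, Function.minimalPeriod u (ω i) = l)
    (hω : ∀ i j, u.SameCycle (ω i) (ω j) → i = j) (i : Fin 5) (t : ZMod l) :
    iota u ω hl hω (i, t) = (u ^ t.val) (ω i) := rfl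

theorem u_iota (hl : ∀ i, Function.minimalPeriod u (ω i) = l)
    (hω : ∀ i j, u.SameCycle (ω i) (ω j) → i = j) (i : Fin 5) (t : ZMod l) :
    u (iota u ω hl hω (i, t)) = iota u ω hl hω (i, t + 1) := by
  rw [iota_apply, iota_apply]
  have h1 : (t + 1).val = (t.val + 1) % l := by
    rw [ZMod.val_add, ZMod.val_one_eq_one_mod, Nat.add_mod_mod]
  have h2 : u ((u ^ t.val) (ω i)) = (u ^ (t.val + 1)) (ω i) := by
    rw [pow_succ', Perm.mul_apply]
  rw [h1, h2]
  have h3 := Function.iterate_mod_minimalPeriod_eq (f := u) (x := ω i) (n := t.val + 1)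
  rw [hl, Perm.iterate_eq_pow, Perm.iterate_eq_pow] at h3
  exact h3.symm

/-- permutations of the five cycles -/
noncomputable def theta (hl : ∀ i, Function.minimalPeriod u (ω i) = l)
    (hω : ∀ i j, u.SameCycle (ω i) (ω j) → i = j) : Perm (Fin 5) →* Perm (Fin n) :=
  (Perm.viaEmbeddingHom (iota u ω hl hω)).comp
    { toFun := fun σ => Equiv.prodCongr σ (Equiv.refl (ZMod l))
      map_one' := by
        ext x <;> rfl
      map_mul' := fun a b => by
        ext x <;> rfl }

theorem theta_iota (hl : ∀ i, Function.minimalPeriod u (ω i) = l)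
    (hω : ∀ i j, u.SameCycle (ω i) (ω j) → i = j) (σ : Perm (Fin 5)) (i : Fin 5) (t : ZMod l) :
    theta hl hω σ (iota u ω hl hω (i, t)) = iota u ω hl hω (σ i, t) := by
  unfold theta
  rw [MonoidHom.comp_apply, Perm.viaEmbeddingHom_apply]
  exact Perm.viaEmbedding_apply _ _ _

theorem theta_not (hl : ∀ i, Function.minimalPeriod u (ω i) = l)
    (hω : ∀ i j, u.SameCycle (ω i) (ω j) → i = j) (σ : Perm (Fin 5)) {x : Fin n}
    (hx : x ∉ Set.range (iota u ω hl hω)) : theta hl hω σ x = x := by
  unfold theta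
  rw [MonoidHom.comp_apply, Perm.viaEmbeddingHom_apply]
  exact Perm.viaEmbedding_apply_of_notMem _ _ _ hx

theorem theta_inj (hl : ∀ i, Function.minimalPeriod u (ω i) = l)
    (hω : ∀ i j, u.SameCycle (ω i) (ω j) → i = j) : Function.Injective (theta hl hω) := by
  intro σ τ h
  ext i
  have h1 := theta_iota hl hω σ i 0
  rw [h, theta_iota] at h1
  have h2 := (iota u ω hl hω).injective h1
  rw [Prod.mk.injEq] at h2
  rw [h2.1]

theorem theta_comm (hl : ∀ i, Function.minimalPeriod u (ω i) = l)
    (hω : ∀ i j, u.SameCycle (ω i) (ω j) → i = j) (σ : Perm (Fin 5)) :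
    Commute (theta hl hω σ) u := by
  unfold Commute SemiconjBy
  ext1 x
  rw [Perm.mul_apply, Perm.mul_apply]
  by_cases hx : x ∈ Set.range (iota u ω hl hω)
  · obtain ⟨⟨i, t⟩, rfl⟩ := hx
    rw [u_iota, theta_iota, theta_iota, u_iota]
  · have hux : u x ∉ Set.range (iota u ω hl hω) := by
      rintro ⟨⟨i, t⟩, h⟩
      apply hx
      refine ⟨(i, t - 1), ?_⟩
      apply u.injective
      rw [u_iota, sub_add_cancel, h]
    rw [theta_not hl hω σ hx, theta_not hl hω σ hux]

end theta

set_option maxRecDepth 20000 in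
theorem exists_pair {n m : ℕ} (hm : 0 < m) (hn : 4 * m * m < n) {u : Perm (Fin n)}
    (hu : u ^ m = 1) {r : ℕ} (h23 : r = 2 ∨ r = 3) : ∃ a b : Perm (Fin n),
      Perm.sign a = 1 ∧ Perm.sign b = 1 ∧ Commute a u ∧ Commute b u ∧ b ^ 3 = 1 ∧
      (a * b * a⁻¹ * b⁻¹) ^ r = 1 ∧ a * b * a⁻¹ * b⁻¹ ≠ 1 := by
  obtain ⟨l, ω, hl0, hl, hω⟩ := exists_five hm hn hu
  have : NeZero l := ⟨hl0.ne'⟩
  have h5 : ∃ a0 b0 c0 : Perm (Fin 5), a0 = c0 * c0 ∧ b0 ^ 3 = 1 ∧
      (a0 * b0 * a0⁻¹ * b0⁻¹) ^ r = 1 ∧ a0 * b0 * a0⁻¹ * b0⁻¹ ≠ 1 := by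
    rcases h23 with rfl | rfl
    · refine ⟨swap 0 1 * swap 2 3, swap 0 1 * swap 1 2, swap 0 2 * swap 2 1 * swap 1 3, ?_, ?_, ?_,
        ?_⟩ <;> decide
    · refine ⟨swap 0 1 * swap 3 4, swap 0 1 * swap 1 2, swap 0 3 * swap 3 1 * swap 1 4, ?_, ?_, ?_,
        ?_⟩ <;> decide
  obtain ⟨a0, b0, c0, hac, hb, hr1, hr2⟩ := h5
  have hcom : theta hl hω a0 * theta hl hω b0 * (theta hl hω a0)⁻¹ * (theta hl hω b0)⁻¹ =
      theta hl hω (a0 * b0 * a0⁻¹ * b0⁻¹) := by
    rw [map_mul, map_mul, map_mul, map_inv, map_inv]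
  refine ⟨theta hl hω a0, theta hl hω b0, ?_, ?_, theta_comm hl hω _, theta_comm hl hω _, ?_, ?_,
    ?_⟩
  · rw [hac, map_mul, map_mul]
    exact Int.units_mul_self _
  · have h1 : Perm.sign (theta hl hω b0) ^ 3 = 1 := by
      rw [← map_pow, ← map_pow, hb, map_one, map_one]
    rcases Int.units_eq_one_or (Perm.sign (theta hl hω b0)) with h | h
    · exact h
    · rw [h] at h1
      exact absurd h1 (by decide)
  · rw [← map_pow, hb, map_one]
  · rw [hcom, ← map_pow, hr1, map_one]
  · rw [hcom]
    intro h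
    apply hr2
    apply theta_inj hl hω
    rw [h, map_one]

end Pool.Agent.Lib.MP_b9166b_al
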