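import Mathlib

/-!
# Elementary abelian groups of linear maps of bounded degree

A finite group `E` of exponent `r ∈ {2, 3}` acting faithfully on a vector space over a field in which
`r ≠ 0`, with `rank (1 - e) ≤ D` for all `e`, has at most `r ^ D` elements.
-/

set_option autoImplicit false

namespace Pool.Agent.Lib.MP_b9166b_al

open LinearMap Module

variable {F : Type} [Field F]

/-- the averaging operator -/
noncomputable def avg {V : Type} [AddCommGroup V] [Module F V] (r : ℕ) (f : V →ₗ[F] V) :
    V →ₗ[F] V :=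
  (r : F)⁻¹ • ∑ i ∈ Finset.range r, f ^ i

section avg

variable {V : Type} [AddCommGroup V] [Module F V] {r : ℕ} {f : V →ₗ[F] V}

theorem mul_avg (hf : f ^ r = 1) : f * avg r f = avg r f := by
  unfold avg
  rw [mul_smul_comm, Finset.mul_sum]
  congr 1
  have h1 : ∑ i ∈ Finset.range r, f * f ^ i = ∑ i ∈ Finset.range r, f ^ (i + 1) := by
    refine Finset.sum_congr rfl fun i _ => ?_
    rw [pow_succ']
  have h2 := Finset.sum_range_succ' (fun i => f ^ i) r
  have h3 := Finset.sum_range_succ (fun i => f ^ i) r
  rw [h1]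
  rw [h2, hf, pow_zero] at h3
  exact add_right_cancel h3

theorem avg_mul (hf : f ^ r = 1) : avg r f * f = avg r f := by
  have h : Commute f (avg r f) := by
    unfold avg
    apply Commute.smul_right
    apply Commute.sum_right
    intro i _
    exact (Commute.refl f).pow_right i
  rw [← h.eq, mul_avg hf]

theorem avg_apply_fixed (hr : (r : F) ≠ 0) {v : V} (hv : f v = v) : avg r f v = v := by
  have h1 : ∀ i : ℕ, (f ^ i) v = v := by
    intro i
    induction i with
    | zero => simp
    | succ i ih => rw [pow_succ, Module.End.mul_apply, hv, ih]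
  unfold avg
  rw [LinearMap.smul_apply, LinearMap.sum_apply, Finset.sum_congr rfl (fun i _ => h1 i)]
  rw [Finset.sum_const, Finset.card_range, ← Nat.cast_smul_eq_nsmul F, smul_smul,
    inv_mul_cancel₀ hr, one_smul]

theorem sub_avg_mem (hr : (r : F) ≠ 0) (v : V) : v - avg r f v ∈ LinearMap.range (1 - f) := by
  have h1 : ∀ i : ℕ, v - (f ^ i) v ∈ LinearMap.range (1 - f) := by
    intro i
    induction i with
    | zero => simp
    | succ i ih =>
      have : v - (f ^ (i + 1)) v = (v - (f ^ i) v) + (1 - f) ((f ^ i) v) := by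
        rw [pow_succ', Module.End.mul_apply, LinearMap.sub_apply, Module.End.one_apply]
        abel
      rw [this]
      exact Submodule.add_mem _ ih (LinearMap.mem_range_self _ _)
  have h2 : v - avg r f v = (r : F)⁻¹ • ∑ i ∈ Finset.range r, (v - (f ^ i) v) := by
    unfold avg
    rw [LinearMap.smul_apply, LinearMap.sum_apply, Finset.sum_sub_distrib, Finset.sum_const,
      Finset.card_range, ← Nat.cast_smul_eq_nsmul F, smul_sub, smul_smul, inv_mul_cancel₀ hr,
      one_smul]
  rw [h2]
  exact Submodule.smul_mem _ _ (Submodule.sum_mem _ fun i _ => h1 i)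

theorem avg_mem_ker (hf : f ^ r = 1) (v : V) : avg r f v ∈ LinearMap.ker (1 - f) := by
  rw [LinearMap.mem_ker, LinearMap.sub_apply, Module.End.one_apply, ← Module.End.mul_apply,
    mul_avg hf, sub_self]

theorem disjoint_ker_range (hr : (r : F) ≠ 0) (hf : f ^ r = 1) :
    Disjoint (LinearMap.ker (1 - f)) (LinearMap.range (1 - f)) := by
  rw [Submodule.disjoint_def]
  rintro v hv ⟨w, rfl⟩
  have h1 : f ((1 - f) w) = (1 - f) w := by
    rw [LinearMap.mem_ker, LinearMap.sub_apply, Module.End.one_apply, sub_eq_zero] at hv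
    exact hv.symm
  have h2 := avg_apply_fixed hr h1
  rw [← h2, LinearMap.sub_apply, Module.End.one_apply, map_sub, ← Module.End.mul_apply,
    avg_mul hf, sub_self]

end avg

/-- if an elementary abelian group of rank 2 and order `r^2` acts without trivial fixed vectors
then the space is zero -/
theorem exists_fixed {W : Type} [AddCommGroup W] [Module F W] [Nontrivial W] {r : ℕ}
    (h23 : r = 2 ∨ r = 3) (hr : (r : F) ≠ 0) {a b : W →ₗ[F] W} (hab : Commute a b)
    (ha : a ^ r = 1) (hb : b ^ r = 1) :
    ∃ i j : ℕ, i < r ∧ j < r ∧ ¬ (i = 0 ∧ j = 0) ∧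
      LinearMap.ker (1 - a ^ i * b ^ j) ≠ ⊥ := by
  by_contra hc
  push Not at hc
  have hc' : ∀ i j : ℕ, i < r → j < r → ¬ (i = 0 ∧ j = 0) →
      LinearMap.ker (1 - a ^ i * b ^ j) = ⊥ := fun i j hi hj hij => hc i j hi hj (by tauto)
  have hann : ∀ (e N : W →ₗ[F] W), LinearMap.ker (1 - e) = ⊥ → (1 - e) * N = 0 → N = 0 := by
    intro e N he hN
    ext v
    have h1 : (1 - e) (N v) = 0 := by
      rw [← Module.End.mul_apply, hN, LinearMap.zero_apply]
    rw [← LinearMap.mem_ker, he, Submodule.mem_bot] at h1
    rw [h1, LinearMap.zero_apply]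
  have hne : (1 : W →ₗ[F] W) ≠ 0 := one_ne_zero
  rcases h23 with rfl | rfl
  · have h1 := hann a (1 + a) (by simpa using hc' 1 0 (by norm_num) (by norm_num) (by simp)) (by
      have : (1 - a) * (1 + a) = 1 - a ^ 2 := by noncomm_ring
      rw [this, ha, sub_self])
    have h2 := hann b (1 + b) (by simpa using hc' 0 1 (by norm_num) (by norm_num) (by simp)) (by
      have : (1 - b) * (1 + b) = 1 - b ^ 2 := by noncomm_ring
      rw [this, hb, sub_self])
    have h3 := hc' 1 1 (by norm_num) (by norm_num) (by simp)
    have ha1 : a = -1 := by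
      rw [eq_neg_iff_add_eq_zero, add_comm]
      exact h1
    have hb1 : b = -1 := by
      rw [eq_neg_iff_add_eq_zero, add_comm]
      exact h2
    rw [ha1, hb1] at h3
    have h4 : (1 - (-1 : W →ₗ[F] W) ^ 1 * (-1) ^ 1) = 0 := by
      simp
    rw [h4, LinearMap.ker_zero] at h3
    exact absurd h3 top_ne_bot
  · have hN : ∀ e : W →ₗ[F] W, e ^ 3 = 1 → LinearMap.ker (1 - e) = ⊥ → 1 + e + e ^ 2 = 0 := by
      intro e he hk
      refine hann e _ hk ?_
      have : (1 - e) * (1 + e + e ^ 2) = 1 - e ^ 3 := by noncomm_ring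
      rw [this, he, sub_self]
    have hab' : a * b = b * a := hab.eq
    have hab3 : (a * b) ^ 3 = 1 := by rw [hab.mul_pow, ha, hb, one_mul]
    have hab23 : (a * b ^ 2) ^ 3 = 1 := by
      rw [(hab.pow_right 2).mul_pow, ha, ← pow_mul, mul_comm 2 3, pow_mul, hb, one_pow, one_mul]
    have h1 := hN a ha (by simpa using hc' 1 0 (by norm_num) (by norm_num) (by simp))
    have h2 := hN b hb (by simpa using hc' 0 1 (by norm_num) (by norm_num) (by simp))
    have h3 := hN (a * b) hab3
      (by simpa using hc' 1 1 (by norm_num) (by norm_num) (by simp))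
    have h4 := hN (a * b ^ 2) hab23
      (by simpa using hc' 1 2 (by norm_num) (by norm_num) (by simp))
    have e1 : (a * b) ^ 2 = a ^ 2 * b ^ 2 := hab.mul_pow 2
    have e2 : (a * b ^ 2) ^ 2 = a ^ 2 * b := by
      rw [(hab.pow_right 2).mul_pow, ← pow_mul]
      have : b ^ (2 * 2) = b := by
        have : b ^ (2 * 2) = b ^ 3 * b := by rw [← pow_succ]
        rw [this, hb, one_mul]
      rw [this]
    have h5 : (1 + a + a ^ 2) * (1 + b + b ^ 2) = 0 := by rw [h1, zero_mul]
    have h6 : (3 : W →ₗ[F] W) = 0 := by
      rw [e1] at h3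
      rw [e2] at h4
      have : (3 : W →ₗ[F] W) = (1 + a + a ^ 2) + (1 + b + b ^ 2) + (1 + a * b + a ^ 2 * b ^ 2) +
          (1 + a * b ^ 2 + a ^ 2 * b) - (1 + a + a ^ 2) * (1 + b + b ^ 2) := by
        noncomm_ring
        simp
      rw [this, h1, h2, h3, h4]
      simp
    obtain ⟨w, hw⟩ := exists_ne (0 : W)
    have h7 : (3 : F) • w = 0 := by
      have h8 : (3 : W →ₗ[F] W) w = (3 : F) • w := by
        have : (3 : W →ₗ[F] W) = 1 + 1 + 1 := by norm_num
        rw [this]
        simp only [LinearMap.add_apply, Module.End.one_apply]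
        have : (3 : F) = 1 + 1 + 1 := by norm_num
        rw [this, add_smul, add_smul, one_smul]
      rw [← h8, h6, LinearMap.zero_apply]
    rcases smul_eq_zero.1 h7 with h | h
    · exact hr (by exact_mod_cast h)
    · exact hw h

/-! ### The finite dimensional case -/

/-- the restriction of a representation to an invariant submodule -/
noncomputable def resHom {E V : Type} [Group E] [AddCommGroup V] [Module F V]
    (ψ : E →* (V →ₗ[F] V)ˣ) (p : Submodule F V) (hp : ∀ (e : E) (v : V), v ∈ p → (ψ e).val v ∈ p) :
    E →* (p →ₗ[F] p)ˣ :=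
  MonoidHom.toHomUnits
    { toFun := fun e => (ψ e).val.restrict (hp e)
      map_one' := by
        ext v
        simp
      map_mul' := fun a b => by
        ext v
        simp }

theorem resHom_apply {E V : Type} [Group E] [AddCommGroup V] [Module F V]
    (ψ : E →* (V →ₗ[F] V)ˣ) (p : Submodule F V) (hp : ∀ (e : E) (v : V), v ∈ p → (ψ e).val v ∈ p)
    (e : E) (v : p) : (((resHom ψ p hp e).val v : p) : V) = (ψ e).val v := rfl

theorem resHom_eq_one {E V : Type} [Group E] [AddCommGroup V] [Module F V]
    {ψ : E →* (V →ₗ[F] V)ˣ} {p : Submodule F V}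
    {hp : ∀ (e : E) (v : V), v ∈ p → (ψ e).val v ∈ p} {e : E} :
    resHom ψ p hp e = 1 ↔ ∀ v ∈ p, (ψ e).val v = v := by
  constructor
  · intro h v hv
    have := resHom_apply ψ p hp e ⟨v, hv⟩
    rw [h] at this
    simpa using this.symm
  · intro h
    ext v
    rw [resHom_apply]
    simpa using h v v.2

theorem card_le_pow_aux {r : ℕ} (h23 : r = 2 ∨ r = 3) (hr : (r : F) ≠ 0) (n : ℕ) :
    ∀ (E : Type) [CommGroup E] [Finite E], (∀ e : E, e ^ r = 1) →
    ∀ (W : Type) [AddCommGroup W] [Module F W] [FiniteDimensional F W] (ψ : E →* (W →ₗ[F] W)ˣ),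
      Function.Injective ψ → Module.finrank F W = n → Nat.card E ≤ r ^ n := by
  have hr2 : 2 ≤ r := by omega
  have hrp : r.Prime := by
    rcases h23 with rfl | rfl
    · exact Nat.prime_two
    · exact Nat.prime_three
  induction n using Nat.strong_induction_on with
  | _ n ih =>
    intro E _ _ hE W _ _ _ ψ hψ hn
    by_cases hW : Subsingleton W
    · have h1 : Subsingleton E := by
        refine ⟨fun a b => hψ ?_⟩
        ext v
        exact Subsingleton.elim _ _
      rw [Nat.card_of_subsingleton (1 : E)]
      exact Nat.one_le_pow _ _ (by omega)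
    rw [not_subsingleton_iff_nontrivial] at hW
    have hn0 : 0 < n := by
      rw [← hn]
      exact Module.finrank_pos
    by_cases hcard : Nat.card E ≤ r
    · exact hcard.trans (by
        calc r = r ^ 1 := (pow_one r).symm
          _ ≤ r ^ n := Nat.pow_le_pow_right (by omega) hn0)
    push Not at hcard
    -- two independent elements
    have hE1 : ∃ a : E, a ≠ 1 := by
      by_contra hc
      push Not at hc
      have : Nat.card E = 1 := by
        rw [Nat.card_eq_one_iff_unique]
        exact ⟨⟨fun x y => by rw [hc x, hc y]⟩, ⟨1⟩⟩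
      omega
    obtain ⟨a, ha⟩ := hE1
    have : Fact r.Prime := ⟨hrp⟩
    have hao : orderOf a = r := orderOf_eq_prime (hE a) ha
    have hE2 : ∃ b : E, b ∉ Subgroup.zpowers a := by
      by_contra hc
      push Not at hc
      have h1 : Subgroup.zpowers a = ⊤ := by
        rw [eq_top_iff]
        intro x _
        exact hc x
      have h2 : Nat.card (Subgroup.zpowers a) = r := by rw [Nat.card_zpowers, hao]
      rw [h1, Subgroup.card_top] at h2
      omega
    obtain ⟨b, hb⟩ := hE2
    have hψpow : ∀ (e : E) (i : ℕ), ((ψ e).val) ^ i = (ψ (e ^ i)).val := by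
      intro e i
      rw [map_pow, Units.val_pow_eq_pow_val]
    have hcomm : Commute (ψ a).val (ψ b).val := by
      unfold Commute SemiconjBy
      rw [← Units.val_mul, ← Units.val_mul, ← map_mul, ← map_mul, mul_comm a b]
    obtain ⟨i, j, hi, hj, hij, hker⟩ := exists_fixed (W := W) h23 hr hcomm
      (by rw [hψpow, hE, map_one, Units.val_one]) (by rw [hψpow, hE, map_one, Units.val_one])
    set e : E := a ^ i * b ^ j with he
    have hval : (ψ a).val ^ i * (ψ b).val ^ j = (ψ e).val := by
      rw [hψpow, hψpow, ← Units.val_mul, ← map_mul]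
    rw [hval] at hker
    have he1 : e ≠ 1 := by
      intro h1
      by_cases hj0 : j = 0
      · have hi0 : i ≠ 0 := fun h => hij ⟨h, hj0⟩
        rw [he, hj0, pow_zero, mul_one] at h1
        have := orderOf_dvd_of_pow_eq_one h1
        rw [hao] at this
        exact absurd (Nat.le_of_dvd (by omega) this) (by omega)
      · have h2 : b ^ j ∈ Subgroup.zpowers a := by
          have : b ^ j = (a ^ i)⁻¹ := by
            rw [eq_inv_iff_mul_eq_one, mul_comm]
            exact h1
          rw [this]
          exact Subgroup.inv_mem _ (Subgroup.npow_mem_zpowers a i)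
        apply hb
        have hcop : Nat.Coprime j r := by
          rw [Nat.coprime_comm, hrp.coprime_iff_not_dvd]
          intro h
          exact absurd (Nat.le_of_dvd (by omega) h) (by omega)
        obtain ⟨k, hk⟩ := Nat.exists_mul_mod_eq_one_of_coprime hcop (by omega : 1 < r)
        have h3 : (b ^ j) ^ k = b := by
          rw [← pow_mul]
          have h4 : b ^ (j * k) = b ^ ((j * k) % r) := by
            rw [pow_eq_pow_mod (j * k) (hE b)]
          rw [h4, hk.2, pow_one]
        rw [← h3]
        exact Subgroup.pow_mem _ h2 k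
    -- the two invariant subspaces
    set f : W →ₗ[F] W := (ψ e).val with hf
    have hfr : f ^ r = 1 := by rw [hf, hψpow, hE, map_one, Units.val_one]
    have hcom : ∀ c : E, (ψ c).val * f = f * (ψ c).val := by
      intro c
      rw [hf, ← Units.val_mul, ← Units.val_mul, ← map_mul, ← map_mul, mul_comm c e]
    have hcom' : ∀ (c : E) (v : W), (ψ c).val (f v) = f ((ψ c).val v) := by
      intro c v
      rw [← Module.End.mul_apply, hcom, Module.End.mul_apply]
    have hp1 : ∀ (c : E) (v : W), v ∈ LinearMap.ker (1 - f) →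
        (ψ c).val v ∈ LinearMap.ker (1 - f) := by
      intro c v hv
      rw [LinearMap.mem_ker, LinearMap.sub_apply, Module.End.one_apply, sub_eq_zero] at hv ⊢
      rw [← hcom', ← hv]
    have hp2 : ∀ (c : E) (v : W), v ∈ LinearMap.range (1 - f) →
        (ψ c).val v ∈ LinearMap.range (1 - f) := by
      rintro c v ⟨w, rfl⟩
      refine ⟨(ψ c).val w, ?_⟩
      rw [LinearMap.sub_apply, LinearMap.sub_apply, Module.End.one_apply, Module.End.one_apply,
        map_sub, hcom']
    have hdim : Module.finrank F (LinearMap.range (1 - f)) +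
        Module.finrank F (LinearMap.ker (1 - f)) = n := by
      rw [LinearMap.finrank_range_add_finrank_ker, hn]
    have hk0 : 0 < Module.finrank F (LinearMap.ker (1 - f)) := by
      rw [Module.finrank_pos_iff, Submodule.nontrivial_iff_ne_bot]
      exact hker
    have hr0 : 0 < Module.finrank F (LinearMap.range (1 - f)) := by
      rw [Module.finrank_pos_iff, Submodule.nontrivial_iff_ne_bot]
      intro h
      rw [LinearMap.range_eq_bot, sub_eq_zero] at h
      apply he1
      apply hψ
      rw [map_one]
      ext1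
      rw [Units.val_one]
      exact h.symm
    set ψ1 := resHom ψ (LinearMap.ker (1 - f)) hp1 with hψ1
    set ψ2 := resHom ψ (LinearMap.range (1 - f)) hp2 with hψ2
    have hc1 : Nat.card (E ⧸ ψ1.ker) ≤ r ^ Module.finrank F (LinearMap.ker (1 - f)) := by
      refine ih _ (by omega) (E ⧸ ψ1.ker) (fun q => ?_) (LinearMap.ker (1 - f))
        (QuotientGroup.kerLift ψ1) (QuotientGroup.kerLift_injective ψ1) rfl
      obtain ⟨c, rfl⟩ := QuotientGroup.mk_surjective q
      rw [← QuotientGroup.mk_pow, hE, QuotientGroup.mk_one]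
    have hc2 : Nat.card ψ1.ker ≤ r ^ Module.finrank F (LinearMap.range (1 - f)) := by
      refine ih _ (by omega) ψ1.ker (fun c => ?_) (LinearMap.range (1 - f))
        (ψ2.comp ψ1.ker.subtype) ?_ rfl
      · ext
        rw [Subgroup.coe_pow, hE, Subgroup.coe_one]
      · rw [injective_iff_map_eq_one]
        rintro ⟨c, hc⟩ h
        rw [MonoidHom.mem_ker, hψ1, resHom_eq_one] at hc
        rw [MonoidHom.comp_apply, Subgroup.coe_subtype, hψ2, resHom_eq_one] at h
        have h1 : c = 1 := by
          apply hψ
          rw [map_one]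
          ext v
          have h2 : v = (v - avg r f v) + avg r f v := by abel
          rw [h2, map_add, h _ (sub_avg_mem hr v), hc _ (avg_mem_ker hfr v)]
          rfl
        ext
        exact h1
    rw [Subgroup.card_eq_card_quotient_mul_card_subgroup ψ1.ker, ← hdim, pow_add, mul_comm]
    exact Nat.mul_le_mul hc2 hc1

/-- A finite group of exponent `r` of linear maps with `rank (1 - e) ≤ D` has at most `r ^ D`
elements. -/
theorem card_le_pow {r : ℕ} (h23 : r = 2 ∨ r = 3) (hr : (r : F) ≠ 0) {D : ℕ}
    {E : Type} [CommGroup E] [Finite E] (hE : ∀ e : E, e ^ r = 1)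
    {V : Type} [AddCommGroup V] [Module F V] (ψ : E →* (V →ₗ[F] V)ˣ)
    (hψ : Function.Injective ψ)
    (hfin : ∀ e : E, FiniteDimensional F (LinearMap.range (1 - (ψ e).val)))
    (hD : ∀ e : E, Module.finrank F (LinearMap.range (1 - (ψ e).val)) ≤ D) :
    Nat.card E ≤ r ^ D := by
  obtain ⟨e, he⟩ := Finite.exists_max
    fun e : E => Module.finrank F (LinearMap.range (1 - (ψ e).val))
  set f : V →ₗ[F] V := (ψ e).val with hf
  have hψpow : ∀ (e : E) (i : ℕ), ((ψ e).val) ^ i = (ψ (e ^ i)).val := by
    intro e i
    rw [map_pow, Units.val_pow_eq_pow_val]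
  have hfr : f ^ r = 1 := by rw [hf, hψpow, hE, map_one, Units.val_one]
  have hcom : ∀ c : E, (ψ c).val * f = f * (ψ c).val := by
    intro c
    rw [hf, ← Units.val_mul, ← Units.val_mul, ← map_mul, ← map_mul, mul_comm c e]
  have hcom' : ∀ (c : E) (v : V), (ψ c).val (f v) = f ((ψ c).val v) := by
    intro c v
    rw [← Module.End.mul_apply, hcom, Module.End.mul_apply]
  have hp2 : ∀ (c : E) (v : V), v ∈ LinearMap.range (1 - f) →
      (ψ c).val v ∈ LinearMap.range (1 - f) := by
    rintro c v ⟨w, rfl⟩
    refine ⟨(ψ c).val w, ?_⟩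
    rw [LinearMap.sub_apply, LinearMap.sub_apply, Module.End.one_apply, Module.End.one_apply,
      map_sub, hcom']
  have := hfin e
  have hinj : Function.Injective (resHom ψ (LinearMap.range (1 - f)) hp2) := by
    rw [injective_iff_map_eq_one]
    intro c hc
    rw [resHom_eq_one] at hc
    -- `c` is trivial on the fixed space of `f`
    have hker : ∀ v ∈ LinearMap.ker (1 - f), (ψ c).val v = v := by
      by_contra hcon
      push Not at hcon
      obtain ⟨v, hv, hcv⟩ := hcon
      have hv' : f v = v := by
        rw [LinearMap.mem_ker, LinearMap.sub_apply, Module.End.one_apply, sub_eq_zero] at hv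
        exact hv.symm
      have h1 : LinearMap.range (1 - f) ≤ LinearMap.range (1 - (ψ (c * e)).val) := by
        rintro w ⟨y, rfl⟩
        -- the average of `y` is fixed, so we may replace `y` by `y - avg y` in the range
        refine ⟨y - avg r f y, ?_⟩
        have h2 : y - avg r f y ∈ LinearMap.range (1 - f) := sub_avg_mem hr y
        have h3 : f (y - avg r f y) ∈ LinearMap.range (1 - f) := hp2 e _ h2
        rw [LinearMap.sub_apply, Module.End.one_apply, map_mul, Units.val_mul,
          Module.End.mul_apply, ← hf, hc _ h3, map_sub, ← Module.End.mul_apply f, mul_avg hfr,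
          LinearMap.sub_apply, Module.End.one_apply]
        abel
      have h4 : v - (ψ c).val v ∈ LinearMap.range (1 - (ψ (c * e)).val) := by
        refine ⟨v, ?_⟩
        rw [LinearMap.sub_apply, Module.End.one_apply, map_mul, Units.val_mul,
          Module.End.mul_apply, ← hf, hv']
      have h5 : v - (ψ c).val v ∉ LinearMap.range (1 - f) := by
        intro h6
        have h7 : v - (ψ c).val v ∈ LinearMap.ker (1 - f) := by
          rw [LinearMap.mem_ker, LinearMap.sub_apply, Module.End.one_apply, map_sub, ← hcom', hv',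
            sub_self]
        have h8 := (Submodule.disjoint_def.1 (disjoint_ker_range hr hfr)) _ h7 h6
        rw [sub_eq_zero] at h8
        exact hcv h8.symm
      have := hfin (c * e)
      have h9 : LinearMap.range (1 - f) < LinearMap.range (1 - (ψ (c * e)).val) :=
        lt_of_le_of_ne h1 fun h => h5 (by rw [h]; exact h4)
      have h10 := Submodule.finrank_lt_finrank_of_lt h9
      have h11 := he (c * e)
      omega
    apply hψ
    rw [map_one]
    ext v
    have h2 : v = (v - avg r f v) + avg r f v := by abel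
    rw [h2, map_add, hc _ (sub_avg_mem hr v), hker _ (avg_mem_ker hfr v)]
    rfl
  refine (card_le_pow_aux h23 hr _ E hE _ _ hinj rfl).trans ?_
  apply Nat.pow_le_pow_right (by omega)
  exact hD e

end Pool.Agent.Lib.MP_b9166b_al
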