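import Mathlib
import Pool.Agent.Lib.MP_b9166b_al.Rep
import Pool.Agent.Lib.MP_b9166b_al.Comb
import Pool.Agent.Lib.MP_b9166b_al.Germ
import Pool.Agent.Lib.MP_b9166b_al.Orb
import Pool.Agent.Lib.MP_b9166b_al.Deg

/-!
# Simple groups covered by products of an alternating group and a finite group
-/

set_option autoImplicit false

namespace Pool.Agent.Lib.MP_b9166b_al

open Equiv Filter

/-- A cover of the finite set `S`: a subgroup `Alt(n) × K` of `G`, `K` finite, which contains `S`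
and whose projection to `Alt(n)` is injective on `S`. -/
structure Cov (G : Type) [Group G] (S : Finset G) where
  n : ℕ
  K : Type
  [grp : Group K]
  [fin : Finite K]
  φ : alternatingGroup (Fin n) × K →* G
  inj : Function.Injective φ
  mem : ∀ g ∈ S, g ∈ Set.range φ
  sep : ∀ a b, φ a ∈ S → φ b ∈ S → a.1 = b.1 → a = b

/-- every finite subset has a cover -/
def LocAlt (G : Type) [Group G] : Prop := ∀ S : Finset G, Nonempty (Cov G S)

namespace Cov

variable {G : Type} [Group G] {S : Finset G} (c : Cov G S)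

instance : Group c.K := c.grp
instance : Finite c.K := c.fin

open Classical in
/-- the alternating component of `g` -/
noncomputable def p (g : G) : Perm (Fin c.n) :=
  if h : g ∈ Set.range c.φ then (h.choose.1 : Perm (Fin c.n)) else 1

theorem p_phi (a : alternatingGroup (Fin c.n) × c.K) : c.p (c.φ a) = (a.1 : Perm (Fin c.n)) := by
  have h : c.φ a ∈ Set.range c.φ := ⟨a, rfl⟩
  unfold p
  rw [dif_pos h, c.inj h.choose_spec]

theorem p_one : c.p 1 = 1 := by
  have := c.p_phi 1
  rw [map_one] at this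
  rw [this]
  rfl

theorem p_mul {g h : G} (hg : g ∈ Set.range c.φ) (hh : h ∈ Set.range c.φ) :
    c.p (g * h) = c.p g * c.p h := by
  obtain ⟨a, rfl⟩ := hg
  obtain ⟨b, rfl⟩ := hh
  rw [← map_mul, p_phi, p_phi, p_phi]
  rfl

theorem p_inv {g : G} (hg : g ∈ Set.range c.φ) : c.p g⁻¹ = (c.p g)⁻¹ := by
  obtain ⟨a, rfl⟩ := hg
  rw [← map_inv, p_phi, p_phi]
  rfl

theorem p_ne {g : G} (hg : g ∈ S) (h1 : (1 : G) ∈ S) (hne : g ≠ 1) : c.p g ≠ 1 := by
  obtain ⟨a, ha⟩ := c.mem g hg
  intro h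
  apply hne
  rw [← ha, p_phi] at h
  have h2 : a.1 = (1 : alternatingGroup (Fin c.n) × c.K).1 := by
    ext1
    exact h
  have := c.sep a 1 (by rw [ha]; exact hg) (by rw [map_one]; exact h1) h2
  rw [← ha, this, map_one]

/-- the hom of a finite subgroup contained in the cover -/
noncomputable def hom (Q : Subgroup G) (hQ : ∀ g ∈ Q, g ∈ Set.range c.φ) :
    Q →* Perm (Fin c.n) where
  toFun g := c.p g
  map_one' := c.p_one
  map_mul' a b := c.p_mul (hQ a a.2) (hQ b b.2)

/-- elements with trivial second component -/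
noncomputable def lift (σ : Perm (Fin c.n)) (hσ : Perm.sign σ = 1) : G :=
  c.φ (⟨σ, Perm.mem_alternatingGroup.2 hσ⟩, 1)

theorem lift_mem (σ : Perm (Fin c.n)) (hσ : Perm.sign σ = 1) : c.lift σ hσ ∈ Set.range c.φ :=
  ⟨_, rfl⟩

theorem p_lift (σ : Perm (Fin c.n)) (hσ : Perm.sign σ = 1) : c.p (c.lift σ hσ) = σ :=
  c.p_phi _

theorem lift_mul (σ τ : Perm (Fin c.n)) (hσ : Perm.sign σ = 1) (hτ : Perm.sign τ = 1)
    (h : Perm.sign (σ * τ) = 1) : c.lift (σ * τ) h = c.lift σ hσ * c.lift τ hτ := by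
  unfold lift
  rw [← map_mul]
  congr 1
  rw [Prod.mk_mul_mk, mul_one]
  rfl

theorem conj_lift {g : G} (hg : g ∈ Set.range c.φ) (σ : Perm (Fin c.n))
    (hσ : Perm.sign σ = 1) (h : Perm.sign (c.p g * σ * (c.p g)⁻¹) = 1) :
    g * c.lift σ hσ * g⁻¹ = c.lift (c.p g * σ * (c.p g)⁻¹) h := by
  obtain ⟨⟨a, k⟩, rfl⟩ := hg
  unfold lift
  rw [← map_inv, ← map_mul, ← map_mul]
  congr 1
  rw [Prod.inv_mk, Prod.mk_mul_mk, Prod.mk_mul_mk, mul_one, mul_inv_cancel]
  congr 1
  ext1
  change ((a * ⟨σ, Perm.mem_alternatingGroup.2 hσ⟩ * a⁻¹ : alternatingGroup (Fin c.n)) :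
    Perm (Fin c.n)) = c.p (c.φ (a, k)) * σ * (c.p (c.φ (a, k)))⁻¹
  rw [p_phi]
  rfl

theorem sign_conj (g : G) (σ : Perm (Fin c.n)) (hσ : Perm.sign σ = 1) :
    Perm.sign (c.p g * σ * (c.p g)⁻¹) = 1 := by
  rw [map_mul, map_mul, hσ, mul_one, map_inv, mul_inv_cancel]

theorem finite_range : (Set.range c.φ).Finite := Set.finite_range _

end Cov

/-- a choice of covers; the covered set always contains `1` -/
noncomputable def LocAlt.cov {G : Type} [Group G] (h : LocAlt G) (T : Finset G) :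
    letI := Classical.decEq G
    Cov G (insert 1 T) :=
  letI := Classical.decEq G
  (h (insert 1 T)).some

section

variable {G : Type} [Group G]

/-- the degree of `g` in the cover of `T` -/
noncomputable def dg (h : LocAlt G) (T : Finset G) (g : G) : ℕ := ((h.cov T).p g).support.card

theorem mem_range_cov (h : LocAlt G) {T : Finset G} {g : G} (hg : g ∈ T) :
    g ∈ Set.range (h.cov T).φ := by
  classical
  apply (h.cov T).mem
  exact Finset.mem_insert_of_mem hg

theorem cov_ne (h : LocAlt G) {T : Finset G} {g : G} (hg : g ∈ T) (hne : g ≠ 1) :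
    (h.cov T).p g ≠ 1 := by
  classical
  exact (h.cov T).p_ne (Finset.mem_insert_of_mem hg) (Finset.mem_insert_self _ _) hne

/-- if `G` is not a group of finitary permutations, then the degrees tend to infinity -/
theorem growth (h : LocAlt G) (hs : IsSimpleGroup G) (hG : ¬ FinPerm G) {y : G} (hy : y ≠ 1)
    (B : ℕ) : ∃ S : Finset G, ∀ T : Finset G, S ⊆ T → B < dg h T y := by
  classical
  by_contra hcon
  push Not at hcon
  apply hG
  have hfreq : ∃ᶠ T in (atTop : Filter (Finset G)), dg h T y ≤ B := by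
    rw [Filter.frequently_atTop]
    intro S
    obtain ⟨T, hT, hTB⟩ := hcon S
    exact ⟨T, hT, hTB⟩
  have hne : NeBot ((atTop : Filter (Finset G)) ⊓ 𝓟 {T | dg h T y ≤ B}) :=
    Filter.frequently_mem_iff_neBot.1 hfreq
  set U := Ultrafilter.of ((atTop : Filter (Finset G)) ⊓ 𝓟 {T | dg h T y ≤ B}) with hU
  have hU1 : (U : Filter (Finset G)) ≤ atTop := (Ultrafilter.of_le _).trans inf_le_left
  have hU2 : ∀ᶠ T in (U : Filter (Finset G)), dg h T y ≤ B := by
    have : (U : Filter (Finset G)) ≤ 𝓟 {T | dg h T y ≤ B} := (Ultrafilter.of_le _).trans inf_le_right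
    exact this (Filter.mem_principal_self _)
  have hmem : ∀ g : G, ∀ᶠ T in (U : Filter (Finset G)), g ∈ T := by
    intro g
    refine hU1 ?_
    filter_upwards [Filter.eventually_ge_atTop ({g} : Finset G)] with T hT
    exact hT (Finset.mem_singleton_self g)
  set N : Subgroup G :=
    { carrier := {g | ∃ B : ℕ, ∀ᶠ T in (U : Filter (Finset G)), dg h T g ≤ B}
      one_mem' := by
        refine ⟨0, Filter.Eventually.of_forall fun T => ?_⟩
        unfold dg
        rw [Cov.p_one]
        simp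
      mul_mem' := by
        rintro a b ⟨A, hA⟩ ⟨B, hB⟩
        refine ⟨A + B, ?_⟩
        filter_upwards [hA, hB, hmem a, hmem b] with T h1 h2 h3 h4
        unfold dg at *
        rw [Cov.p_mul _ (mem_range_cov h h3) (mem_range_cov h h4)]
        refine (Finset.card_le_card (Perm.support_mul_le _ _)).trans ?_
        refine (Finset.card_union_le _ _).trans ?_
        omega
      inv_mem' := by
        rintro a ⟨A, hA⟩
        refine ⟨A, ?_⟩
        filter_upwards [hA, hmem a] with T h1 h3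
        unfold dg at *
        rw [Cov.p_inv _ (mem_range_cov h h3), Perm.support_inv]
        exact h1 } with hN
  have hNn : N.Normal := by
    refine ⟨fun a ha g => ?_⟩
    obtain ⟨A, hA⟩ := ha
    refine ⟨A, ?_⟩
    filter_upwards [hA, hmem a, hmem g] with T h1 h3 h4
    unfold dg at *
    have hg := mem_range_cov h h4
    have ha' := mem_range_cov h h3
    have hga : g * a ∈ Set.range (h.cov T).φ := by
      obtain ⟨x, hx⟩ := hg
      obtain ⟨z, hz⟩ := ha'
      exact ⟨x * z, by rw [map_mul, hx, hz]⟩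
    have hgi : g⁻¹ ∈ Set.range (h.cov T).φ := by
      obtain ⟨x, hx⟩ := hg
      exact ⟨x⁻¹, by rw [map_inv, hx]⟩
    rw [Cov.p_mul _ hga hgi, Cov.p_mul _ hg ha', Cov.p_inv _ hg, Perm.card_support_conj]
    exact h1
  have hNtop : N = ⊤ := by
    rcases hs.eq_bot_or_eq_top_of_normal N hNn with h1 | h1
    · exfalso
      apply hy
      rw [← Subgroup.mem_bot, ← h1]
      exact ⟨B, hU2⟩
    · exact h1
  refine finPerm_of_family U
    (fun T g => Perm.viaEmbeddingHom Fin.valEmbedding ((h.cov T).p g)) ?_ ?_ ?_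
  · intro a b
    filter_upwards [hmem a, hmem b] with T h3 h4
    rw [Cov.p_mul _ (mem_range_cov h h3) (mem_range_cov h h4), map_mul]
  · intro g hg
    filter_upwards [hmem g] with T h3 h4
    apply cov_ne h h3 hg
    apply Perm.viaEmbeddingHom_injective Fin.valEmbedding
    rw [h4, map_one]
  · intro g
    have hg : g ∈ N := by
      rw [hNtop]
      exact Subgroup.mem_top g
    obtain ⟨A, hA⟩ := hg
    refine ⟨A, ?_⟩
    filter_upwards [hA] with T h1
    refine ⟨((h.cov T).p g).support.map Fin.valEmbedding, ?_, fun k hk => ?_⟩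
    · rw [Finset.card_map]
      exact h1
    · rw [Perm.viaEmbeddingHom_apply]
      by_cases hkr : k ∈ Set.range (Fin.valEmbedding : Fin (h.cov T).n ↪ ℕ)
      · obtain ⟨a, rfl⟩ := hkr
        rw [Perm.viaEmbedding_apply]
        have h2 : a ∉ ((h.cov T).p g).support := fun h3 =>
          hk (Finset.mem_map_of_mem _ h3)
        rw [Perm.notMem_support.1 h2]
      · exact Perm.viaEmbedding_apply_of_notMem _ _ _ hkr

end

/-- **Main theorem.** -/
theorem finPerm_of_centralizer {G : Type} [Group G] (hs : IsSimpleGroup G) (h : LocAlt G)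
    (x : G) (hx : FinLin (Subgroup.centralizer ({x} : Set G))) : FinPerm G := by
  classical
  by_contra hG
  set C := Subgroup.centralizer ({x} : Set G) with hC
  obtain ⟨F, _, V, _, _, -, ρ, hρ, hfin⟩ := hx
  -- the prime `r`
  obtain ⟨r, h23, hr⟩ : ∃ r : ℕ, (r = 2 ∨ r = 3) ∧ (r : F) ≠ 0 := by
    by_cases h2 : ((2 : ℕ) : F) = 0
    · refine ⟨3, Or.inr rfl, fun h3 => ?_⟩
      have : (1 : F) = 0 := by
        have h4 : ((3 : ℕ) : F) = ((2 : ℕ) : F) + 1 := by norm_num
        rw [h3, h2, zero_add] at h4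
        exact h4.symm
      exact one_ne_zero this
    · exact ⟨2, Or.inl rfl, h2⟩
  have hNe : NeZero r := ⟨by omega⟩
  -- a nontrivial element
  have := hs.toNontrivial
  obtain ⟨y, hy⟩ := exists_ne (1 : G)
  -- `x` has finite order
  have hxfin : IsOfFinOrder x := by
    obtain ⟨c⟩ := h {x}
    obtain ⟨a, ha⟩ := c.mem x (Finset.mem_singleton_self x)
    rw [← ha]
    exact c.φ.isOfFinOrder (isOfFinOrder_of_finite a)
  set m := orderOf x with hm
  have hm0 : 0 < m := hxfin.orderOf_pos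
  -- step A: the elements `α`, `β` in the centralizer
  obtain ⟨S0, hS0⟩ := growth h hs hG hy (4 * m * m)
  set T0 := insert x S0 with hT0
  set c0 := h.cov T0 with hc0
  have hx0 : x ∈ Set.range c0.φ := mem_range_cov h (Finset.mem_insert_self _ _)
  have hn0 : 4 * m * m < c0.n := by
    have h1 := hS0 T0 (Finset.subset_insert _ _)
    have h2 : dg h T0 y ≤ c0.n := by
      unfold dg
      refine (Finset.card_le_univ _).trans ?_
      rw [Fintype.card_fin]
    omega
  have hu : c0.p x ^ m = 1 := by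
    obtain ⟨a, ha⟩ := hx0
    have h1 : a ^ m = 1 := by
      apply c0.inj
      rw [map_pow, ha, map_one, hm, pow_orderOf_eq_one]
    rw [← ha, Cov.p_phi]
    have h2 := congrArg (fun z : alternatingGroup (Fin c0.n) × c0.K => (z.1 : Perm (Fin c0.n))) h1
    exact h2
  obtain ⟨a, b, hsa, hsb, hau, hbu, hb3, hr1, hr2⟩ := exists_pair hm0 hn0 hu h23
  set α : G := c0.lift a hsa with hα
  set β : G := c0.lift b hsb with hβ
  have hlift1 : ∀ σ : Perm (Fin c0.n), ∀ hσ : Perm.sign σ = 1, σ = 1 ↔ c0.lift σ hσ = 1 := by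
    intro σ hσ
    constructor
    · rintro rfl
      unfold Cov.lift
      have : ((⟨1, Perm.mem_alternatingGroup.2 hσ⟩, 1) : alternatingGroup (Fin c0.n) × c0.K) = 1 :=
        rfl
      rw [this, map_one]
    · intro h1
      have := c0.p_lift σ hσ
      rw [h1, Cov.p_one] at this
      exact this.symm
  have hcomx : ∀ (σ : Perm (Fin c0.n)) (hσ : Perm.sign σ = 1), Commute σ (c0.p x) →
      x * c0.lift σ hσ = c0.lift σ hσ * x := by
    intro σ hσ hc
    have h1 := c0.conj_lift hx0 σ hσ (c0.sign_conj x σ hσ)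
    have h2 : c0.p x * σ * (c0.p x)⁻¹ = σ := by
      rw [← hc.eq, mul_assoc, mul_inv_cancel, mul_one]
    have h3 : ∀ (τ : Perm (Fin c0.n)) (hτ : Perm.sign τ = 1), τ = σ →
        c0.lift τ hτ = c0.lift σ hσ := by
      rintro τ hτ rfl
      rfl
    rw [h3 _ _ h2] at h1
    exact mul_inv_eq_iff_eq_mul.1 h1
  have hαx : x * α = α * x := hcomx a hsa hau
  have hβx : x * β = β * x := hcomx b hsb hbu
  set γ : G := α * β * α⁻¹ * β⁻¹ with hγ
  have hα0 : α ∈ Set.range c0.φ := c0.lift_mem _ _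
  have hβ0 : β ∈ Set.range c0.φ := c0.lift_mem _ _
  -- the finite subgroup `Q`
  set Q : Subgroup G := c0.φ.range with hQ
  have hQfin : Finite Q := by
    rw [hQ]
    exact c0.finite_range.to_subtype
  have hxQ : x ∈ Q := hx0
  have hαQ : α ∈ Q := hα0
  have hβQ : β ∈ Q := hβ0
  have hγQ : γ ∈ Q := Q.mul_mem (Q.mul_mem (Q.mul_mem hαQ hβQ) (Q.inv_mem hαQ)) (Q.inv_mem hβQ)
  have hpγ : c0.p γ = a * b * a⁻¹ * b⁻¹ := by
    have h1 : c0.p (α * β) = a * b := by
      rw [c0.p_mul hα0 hβ0, hα, hβ, c0.p_lift, c0.p_lift]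
    have h2 : c0.p (α * β * α⁻¹) = a * b * a⁻¹ := by
      rw [c0.p_mul (Q.mul_mem hαQ hβQ) (Q.inv_mem hαQ), h1, c0.p_inv hα0, hα, c0.p_lift]
    rw [hγ, c0.p_mul (Q.mul_mem (Q.mul_mem hαQ hβQ) (Q.inv_mem hαQ)) (Q.inv_mem hβQ), h2,
      c0.p_inv hβ0, hβ, c0.p_lift]
  have hpow : ∀ (σ : Perm (Fin c0.n)) (hσ : Perm.sign σ = 1) (k : ℕ), σ ^ k = 1 →
      (c0.lift σ hσ) ^ k = 1 := by
    intro σ hσ k hk
    unfold Cov.lift
    rw [← map_pow]
    have : ((⟨σ, Perm.mem_alternatingGroup.2 hσ⟩, 1) : alternatingGroup (Fin c0.n) × c0.K) ^ k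
        = 1 := by
      rw [Prod.pow_mk, one_pow, Prod.mk_eq_one]
      refine ⟨?_, rfl⟩
      ext1
      exact hk
    rw [this, map_one]
  have hβ3 : β ^ 3 = 1 := hpow b hsb 3 hb3
  have hγlift : ∃ hσ : Perm.sign (a * b * a⁻¹ * b⁻¹) = 1, γ = c0.lift (a * b * a⁻¹ * b⁻¹) hσ := by
    have hs1 : Perm.sign (a * b * a⁻¹ * b⁻¹) = 1 := by
      rw [map_mul, map_mul, map_mul, map_inv, map_inv, hsa, hsb]
      rfl
    refine ⟨hs1, ?_⟩
    unfold Cov.lift at hα hβ ⊢
    rw [hγ, hα, hβ, ← map_inv, ← map_inv, ← map_mul, ← map_mul, ← map_mul]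
    congr 1
    simp only [Prod.inv_mk, Prod.mk_mul_mk, inv_one, mul_one]
    rfl
  obtain ⟨hsγ, hγl⟩ := hγlift
  have hγr : γ ^ r = 1 := by
    rw [hγl]
    exact hpow _ _ r hr1
  have hγ1 : γ ≠ 1 := by
    rw [hγl]
    intro h1
    exact hr2 ((hlift1 _ hsγ).2 h1)
  -- step B: the degree of `α`
  have hmemC : ∀ g : G, x * g = g * x → g ∈ C := by
    intro g hg
    rw [hC, Subgroup.mem_centralizer_singleton_iff]
    exact hg.symm
  set α' : C := ⟨α, hmemC α hαx⟩ with hα'
  set d := Module.finrank F (LinearMap.range (1 - (ρ α').val)) with hd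
  have hdeg : Deg (ρ α').val d := ⟨hfin α', le_refl _⟩
  -- step C: many orbits
  obtain ⟨S1, hS1⟩ := growth h hs hG hγ1 ((4 * d + 1) * Nat.card Q)
  have hQf : (Q : Set G).Finite := Set.toFinite _
  set T1 := S1 ∪ hQf.toFinset with hT1
  set c1 := h.cov T1 with hc1
  have hQ1 : ∀ g ∈ Q, g ∈ Set.range c1.φ := by
    intro g hg
    apply mem_range_cov h
    rw [hT1, Finset.mem_union]
    right
    rw [Set.Finite.mem_toFinset]
    exact hg
  set π : Q →* Perm (Fin c1.n) := c1.hom Q hQ1 with hπ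
  have hπa : ∀ g : Q, π g = c1.p g := fun g => rfl
  have hlarge := hS1 T1 Finset.subset_union_left
  unfold dg at hlarge
  obtain ⟨O, hOs, hO⟩ := exists_orbits π (c1.p γ).support (4 * d + 1) hlarge
  set xq : Q := ⟨x, hxQ⟩ with hxq
  set αq : Q := ⟨α, hαQ⟩ with hαq
  set βq : Q := ⟨β, hβQ⟩ with hβq
  set γq : Q := ⟨γ, hγQ⟩ with hγq
  have hγq' : γq = αq * βq * αq⁻¹ * βq⁻¹ := by
    ext
    rfl
  have hγqr : γq ^ r = 1 := by
    ext
    exact hγr
  have hβq3 : βq ^ 3 = 1 := by
    ext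
    exact hβ3
  -- step D: the elements of `G`
  have hsβI : ∀ I, Perm.sign (rI π I βq) = 1 := by
    intro I
    have h1 : Perm.sign (rI π I βq) ^ 3 = 1 := by
      rw [← map_pow, ← map_pow, hβq3, map_one, map_one]
    rcases Int.units_eq_one_or (Perm.sign (rI π I βq)) with h2 | h2
    · exact h2
    · rw [h2] at h1
      exact absurd h1 (by decide)
  have hrIγ : ∀ I, rI π I γq = π αq * rI π I βq * (π αq)⁻¹ * (rI π I βq)⁻¹ := by
    intro I
    rw [rI_conj, hγq', map_mul, map_inv]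
  have hsγI : ∀ I, Perm.sign (rI π I γq) = 1 := by
    intro I
    rw [hrIγ, map_mul, map_inv, hsβI, inv_one, mul_one, map_mul, map_mul, hsβI, mul_one, map_inv,
      mul_inv_cancel]
  set bI : Set (Quotient (orbS π)) → G := fun I => c1.lift (rI π I βq) (hsβI I) with hbI
  set gI : Set (Quotient (orbS π)) → G := fun I => c1.lift (rI π I γq) (hsγI I) with hgI
  have hlifteq : ∀ (σ τ : Perm (Fin c1.n)) (hσ : Perm.sign σ = 1) (hτ : Perm.sign τ = 1), σ = τ →
      c1.lift σ hσ = c1.lift τ hτ := by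
    rintro σ τ hσ hτ rfl
    rfl
  have hxcomm : ∀ I (g : Q) (hsg : Perm.sign (rI π I g) = 1), xq * g * xq⁻¹ = g →
      x * c1.lift (rI π I g) hsg = c1.lift (rI π I g) hsg * x := by
    intro I g hsg hg
    have h1 := c1.conj_lift (hQ1 x hxQ) (rI π I g) hsg (c1.sign_conj x _ hsg)
    have h2 : c1.p x * rI π I g * (c1.p x)⁻¹ = rI π I g := by
      have h3 := rI_conj π I g xq
      rw [hg] at h3
      exact h3
    rw [hlifteq _ _ _ hsg h2] at h1
    exact mul_inv_eq_iff_eq_mul.1 h1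
  have hxβ : xq * βq * xq⁻¹ = βq := by
    ext
    change x * β * x⁻¹ = β
    rw [hβx, mul_assoc, mul_inv_cancel, mul_one]
  have hxα : xq * αq * xq⁻¹ = αq := by
    ext
    change x * α * x⁻¹ = α
    rw [hαx, mul_assoc, mul_inv_cancel, mul_one]
  have hxγ : xq * γq * xq⁻¹ = γq := by
    have h1 : xq * (αq * βq * αq⁻¹ * βq⁻¹) * xq⁻¹ =
        (xq * αq * xq⁻¹) * (xq * βq * xq⁻¹) * (xq * αq * xq⁻¹)⁻¹ * (xq * βq * xq⁻¹)⁻¹ := by
      group
    rw [hγq', h1, hxα, hxβ]
  have hbIC : ∀ I, bI I ∈ C := fun I => hmemC _ (hxcomm I βq (hsβI I) hxβ)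
  have hgIC : ∀ I, gI I ∈ C := fun I => hmemC _ (hxcomm I γq (hsγI I) hxγ)
  have hgIeq : ∀ I, gI I = α * bI I * α⁻¹ * (bI I)⁻¹ := by
    intro I
    have h1 := c1.conj_lift (hQ1 α hαQ) (rI π I βq) (hsβI I) (c1.sign_conj α _ (hsβI I))
    have h2 : gI I * bI I = α * bI I * α⁻¹ := by
      rw [hbI, hgI]
      simp only
      rw [h1]
      have h3 : Perm.sign (rI π I γq * rI π I βq) = 1 := by
        rw [map_mul, hsγI, hsβI, mul_one]
      rw [← c1.lift_mul _ _ (hsγI I) (hsβI I) h3]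
      apply hlifteq
      rw [hrIγ]
      rw [inv_mul_cancel_right]
      rfl
    rw [← h2, mul_inv_cancel_right]
  have hgIdeg : ∀ I, Deg (ρ ⟨gI I, hgIC I⟩).val (2 * d) := by
    intro I
    have h1 : (⟨gI I, hgIC I⟩ : C) = α' * ⟨bI I, hbIC I⟩ * α'⁻¹ * (⟨bI I, hbIC I⟩ : C)⁻¹ := by
      ext
      exact hgIeq I
    rw [h1, map_mul, map_mul, map_mul, map_inv, map_inv]
    exact hdeg.comm
  -- step E: the elementary abelian group
  have hsR : ∀ e, Perm.sign (R π γq hγqr e) = 1 := by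
    intro e
    rw [R_eq π h23, map_mul, hsγI, hsγI, mul_one]
  have hRC : ∀ e, c1.lift (R π γq hγqr e) (hsR e) ∈ C := by
    intro e
    have h1 : c1.lift (R π γq hγqr e) (hsR e) =
        gI {q | 1 ≤ (e.toAdd q).val} * gI {q | 2 ≤ (e.toAdd q).val} := by
      rw [hgI]
      simp only
      rw [← c1.lift_mul _ _ _ _ (by rw [← R_eq π h23 γq hγqr e]; exact hsR e)]
      exact hlifteq _ _ _ _ (R_eq π h23 γq hγqr e)
    rw [h1]
    exact C.mul_mem (hgIC _) (hgIC _)
  have hRdeg : ∀ e, Deg (ρ ⟨c1.lift (R π γq hγqr e) (hsR e), hRC e⟩).val (4 * d) := by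
    intro e
    have h1 : (⟨c1.lift (R π γq hγqr e) (hsR e), hRC e⟩ : C) =
        ⟨gI {q | 1 ≤ (e.toAdd q).val}, hgIC _⟩ * ⟨gI {q | 2 ≤ (e.toAdd q).val}, hgIC _⟩ := by
      ext
      change c1.lift (R π γq hγqr e) (hsR e) =
        gI {q | 1 ≤ (e.toAdd q).val} * gI {q | 2 ≤ (e.toAdd q).val}
      rw [hgI]
      simp only
      rw [← c1.lift_mul _ _ _ _ (by rw [← R_eq π h23 γq hγqr e]; exact hsR e)]
      exact hlifteq _ _ _ _ (R_eq π h23 γq hγqr e)
    rw [h1, map_mul, Units.val_mul]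
    have := (hgIdeg {q | 1 ≤ (e.toAdd q).val}).mul (hgIdeg {q | 2 ≤ (e.toAdd q).val})
    have h4 : 2 * d + 2 * d = 4 * d := by ring
    rw [h4] at this
    exact this
  -- extension by zero
  set ext0 : Multiplicative (O → ZMod r) →* Multiplicative (Quotient (orbS π) → ZMod r) :=
    AddMonoidHom.toMultiplicative
      { toFun := fun e q => if hq : q ∈ O then e ⟨q, hq⟩ else 0
        map_zero' := by
          funext q
          simp
        map_add' := fun e e' => by
          funext q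
          by_cases hq : q ∈ O <;> simp [hq] } with hext0
  have hext0a : ∀ (e : Multiplicative (O → ZMod r)) (q : Quotient (orbS π)) (hq : q ∈ O),
      (ext0 e).toAdd q = e.toAdd ⟨q, hq⟩ := by
    intro e q hq
    change (if hq : q ∈ O then e.toAdd ⟨q, hq⟩ else 0) = _
    rw [dif_pos hq]
  set Ψ : Multiplicative (O → ZMod r) →* C :=
    { toFun := fun e => ⟨c1.lift (R π γq hγqr (ext0 e)) (hsR _), hRC _⟩
      map_one' := by
        ext
        change c1.lift (R π γq hγqr (ext0 1)) (hsR _) = 1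
        have h1 : R π γq hγqr (ext0 1) = 1 := by rw [map_one, map_one]
        rw [hlifteq _ 1 _ (map_one _) h1]
        unfold Cov.lift
        have : ((⟨1, Perm.mem_alternatingGroup.2 (map_one _)⟩, 1) :
            alternatingGroup (Fin c1.n) × c1.K) = 1 := rfl
        rw [this, map_one]
      map_mul' := fun e e' => by
        ext
        change c1.lift (R π γq hγqr (ext0 (e * e'))) (hsR _) =
          c1.lift (R π γq hγqr (ext0 e)) (hsR _) * c1.lift (R π γq hγqr (ext0 e')) (hsR _)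
        rw [← c1.lift_mul _ _ _ _ (by rw [map_mul, hsR, hsR, mul_one])]
        exact hlifteq _ _ _ _ (by rw [map_mul, map_mul]) } with hΨ
  have hΨinj : Function.Injective Ψ := by
    rw [injective_iff_map_eq_one]
    intro e he
    have h1 : R π γq hγqr (ext0 e) = 1 := by
      have h2 : c1.lift (R π γq hγqr (ext0 e)) (hsR _) = 1 := congrArg Subtype.val he
      have h3 := c1.p_lift (R π γq hγqr (ext0 e)) (hsR _)
      rw [h2, Cov.p_one] at h3
      exact h3.symm
    have h2 : ∀ q : O, e.toAdd q = 0 := by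
      rintro ⟨q, hq⟩
      obtain ⟨ω, hω, hωq⟩ := hO q hq
      rw [Perm.mem_support] at hω
      have h3 : R π γq hγqr (ext0 e) ω = ω := by rw [h1, Perm.one_apply]
      rw [R_apply, hωq, hext0a e q hq] at h3
      by_contra hne
      have hval : (e.toAdd ⟨q, hq⟩).val ≠ 0 := fun h0 => hne ((ZMod.val_eq_zero _).1 h0)
      have hlt := ZMod.val_lt (e.toAdd ⟨q, hq⟩)
      have hγω : (π γq ^ r) ω = ω := by rw [← map_pow, hγqr, map_one, Perm.one_apply]
      have hω' : π γq ω ≠ ω := hω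
      set k := (e.toAdd ⟨q, hq⟩).val with hk
      rcases h23 with h2 | h2
      · have : k = 1 := by omega
        rw [this, pow_one] at h3
        exact hω' h3
      · have h4 : k = 1 ∨ k = 2 := by omega
        rcases h4 with h4 | h4
        · rw [h4, pow_one] at h3
          exact hω' h3
        · rw [h4] at h3
          rw [h2, pow_succ', Perm.mul_apply, h3] at hγω
          exact hω' hγω
    have h3 : e.toAdd = 0 := funext h2
    exact h3
  -- the contradiction
  have hcard := card_le_pow (F := F) h23 hr (D := 4 * d)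
    (E := Multiplicative (O → ZMod r))
    (by
      intro e
      have : e.toAdd + 0 = e.toAdd := add_zero _
      apply Multiplicative.toAdd.injective
      rw [toAdd_pow, toAdd_one]
      funext q
      rw [Pi.smul_apply, Pi.zero_apply]
      simp)
    (ρ.comp Ψ) (hρ.comp hΨinj)
    (fun e => (hRdeg (ext0 e)).1) (fun e => (hRdeg (ext0 e)).2)
  have h5 : Nat.card (Multiplicative (O → ZMod r)) = r ^ (4 * d + 1) := by
    rw [Nat.card_congr Multiplicative.toAdd, Nat.card_fun, Nat.card_zmod,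
      Nat.card_eq_fintype_card, Fintype.card_coe, hOs]
  rw [h5] at hcard
  have h6 : r ^ (4 * d) < r ^ (4 * d + 1) := Nat.pow_lt_pow_right (by omega) (by omega)
  omega

end Pool.Agent.Lib.MP_b9166b_al
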