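import Mathlib
import Pool.Agent.Lib.MP_b9166b_al.Main

/-!
# From products of alternating groups to one alternating factor

A Kegel cover argument: in a simple group which is locally a product of alternating groups (times a
finite group), every finite subset projects injectively to one alternating factor of a suitable
finite subgroup.
-/

set_option autoImplicit false

namespace Pool.Agent.Lib.MP_b9166b_al

open Equiv

/-- The alternating group of degree `m`. -/
abbrev Alt (m : ℕ) : Type := alternatingGroup (Fin m)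

/-- The direct product of the alternating groups of degrees `n 0, …, n (k - 1)`. -/
def AltProd {k : ℕ} (n : Fin k → ℕ) : Type := (i : Fin k) → Alt (n i)

noncomputable instance {k : ℕ} (n : Fin k → ℕ) : Group (AltProd n) := Pi.group

/-- `φ` embeds the direct product `A × K` in `G`, its image contains `S`, and the projection to `A`
is injective on `S`. -/
def Covers {G A K : Type} [Group G] [Group A] [Group K] (φ : A × K →* G) (S : Finset G) : Prop :=
  Function.Injective φ ∧ (∀ g ∈ S, g ∈ Set.range φ) ∧
    ∀ a b, φ a ∈ S → φ b ∈ S → a.1 = b.1 → a = b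

/-- Every finite subset `S` of `G` lies in a subgroup of `G` which is a direct product `A × K`, where
`A` is a direct product of finitely many finite alternating groups and `K` is a finite group, such
that the projection to `A` is injective on `S`. -/
def LocAltProd (G : Type) [Group G] : Prop :=
  ∀ S : Finset G, ∃ (k : ℕ) (n : Fin k → ℕ) (K : Type) (_ : Group K) (_ : Finite K)
    (φ : AltProd n × K →* G), Covers φ S

/-- finitely many conjugators suffice -/
theorem exists_conjugators {G : Type} [Group G] (hs : IsSimpleGroup G) (f f' : G) (hf : f ≠ 1) :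
    ∃ T : Finset G, ∀ H N : Subgroup G, (∀ t ∈ T, t ∈ H) →
      (∀ n ∈ N, ∀ h ∈ H, h * n * h⁻¹ ∈ N) → f ∈ N → f' ∈ N := by
  classical
  have h1 : Subgroup.normalClosure ({f} : Set G) = ⊤ := by
    rcases hs.eq_bot_or_eq_top_of_normal (Subgroup.normalClosure ({f} : Set G))
      Subgroup.normalClosure_normal with h2 | h2
    · exfalso
      apply hf
      have h3 : f ∈ Subgroup.normalClosure ({f} : Set G) :=
        Subgroup.subset_normalClosure (Set.mem_singleton f)
      rw [h2, Subgroup.mem_bot] at h3
      exact h3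
    · exact h2
  have h2 : f' ∈ Subgroup.closure (Group.conjugatesOfSet ({f} : Set G)) := by
    change f' ∈ Subgroup.normalClosure ({f} : Set G)
    rw [h1]
    exact Subgroup.mem_top _
  induction h2 using Subgroup.closure_induction with
  | mem g hg =>
    rw [Group.mem_conjugatesOfSet_iff] at hg
    obtain ⟨a, ha, hag⟩ := hg
    rw [Set.mem_singleton_iff] at ha
    subst ha
    rw [isConj_iff] at hag
    obtain ⟨c, hc⟩ := hag
    refine ⟨{c}, fun H N hT hN hfN => ?_⟩
    rw [← hc]
    exact hN _ hfN _ (hT c (Finset.mem_singleton_self c))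
  | one => exact ⟨∅, fun H N _ _ _ => N.one_mem⟩
  | mul a b _ _ iha ihb =>
    obtain ⟨T1, hT1⟩ := iha
    obtain ⟨T2, hT2⟩ := ihb
    refine ⟨T1 ∪ T2, fun H N hT hN hfN => N.mul_mem (hT1 H N ?_ hN hfN) (hT2 H N ?_ hN hfN)⟩
    · exact fun t ht => hT t (Finset.mem_union_left _ ht)
    · exact fun t ht => hT t (Finset.mem_union_right _ ht)
  | inv a _ ih =>
    obtain ⟨T, hT⟩ := ih
    exact ⟨T, fun H N h1 h2 h3 => N.inv_mem (hT H N h1 h2 h3)⟩

theorem LocAltProd.locAlt {G : Type} [Group G] (hs : IsSimpleGroup G) (h : LocAltProd G) :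
    LocAlt G := by
  classical
  intro S
  set D : Finset G := ((S ×ˢ S).image fun p => p.1 * p.2⁻¹).filter fun g => g ≠ 1 with hD
  have hDm : ∀ a ∈ S, ∀ b ∈ S, a * b⁻¹ ≠ 1 → a * b⁻¹ ∈ D := by
    intro a ha b hb hne
    rw [hD, Finset.mem_filter, Finset.mem_image]
    exact ⟨⟨(a, b), Finset.mem_product.2 ⟨ha, hb⟩, rfl⟩, hne⟩
  have hD1 : ∀ g ∈ D, g ≠ 1 := fun g hg => (Finset.mem_filter.1 hg).2
  have hcon : ∀ f f' : G, ∃ T : Finset G, f ≠ 1 → ∀ H N : Subgroup G, (∀ t ∈ T, t ∈ H) →
      (∀ n ∈ N, ∀ h ∈ H, h * n * h⁻¹ ∈ N) → f ∈ N → f' ∈ N := by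
    intro f f'
    by_cases hf : f = 1
    · exact ⟨∅, fun h1 => absurd hf h1⟩
    · obtain ⟨T, hT⟩ := exists_conjugators hs f f' hf
      exact ⟨T, fun _ => hT⟩
  choose T hT using hcon
  set S' : Finset G := (S ∪ D ∪ {1}) ∪ D.biUnion (fun f => D.biUnion (fun f' => T f f')) with hS'
  obtain ⟨k, n, K, _, _, φ0, hφ0, hmem0, hsep0⟩ := h S'
  suffices key : ∀ φ : ((i : Fin k) → alternatingGroup (Fin (n i))) × K →* G,
      Function.Injective φ → (∀ g ∈ S', g ∈ Set.range φ) →
      (∀ a b, φ a ∈ S' → φ b ∈ S' → a.1 = b.1 → a = b) → Nonempty (Cov G S) from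
    key φ0 hφ0 hmem0 hsep0
  intro φ hφ hmem hsep
  have hSS' : ∀ g ∈ S, g ∈ S' := by
    intro g hg
    simp only [hS', Finset.mem_union]
    exact Or.inl (Or.inl (Or.inl hg))
  have hDS' : ∀ g ∈ D, g ∈ S' := by
    intro g hg
    simp only [hS', Finset.mem_union]
    exact Or.inl (Or.inl (Or.inr hg))
  have h1S' : (1 : G) ∈ S' := by
    simp only [hS', Finset.mem_union, Finset.mem_singleton]
    exact Or.inl (Or.inr trivial)
  have hTS' : ∀ f ∈ D, ∀ f' ∈ D, ∀ t ∈ T f f', t ∈ S' := by
    intro f hf f' hf' t ht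
    simp only [hS', Finset.mem_union, Finset.mem_biUnion]
    exact Or.inr ⟨f, hf, f', hf', ht⟩
  by_cases hDe : D = ∅
  · -- `S` has at most one element
    have hsub : ∀ a ∈ S, ∀ b ∈ S, a = b := by
      intro a ha b hb
      by_contra hne
      have h1 : a * b⁻¹ ≠ 1 := fun h2 => hne (mul_inv_eq_one.1 h2)
      have h2 := hDm a ha b hb h1
      rw [hDe] at h2
      exact absurd h2 (Finset.notMem_empty _)
    refine ⟨{ n := 0, K := ((i : Fin k) → alternatingGroup (Fin (n i))) × K,
              φ := φ.comp (MonoidHom.snd _ _), inj := ?_, mem := ?_, sep := ?_ }⟩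
    · intro a b hab
      have h1 : a.2 = b.2 := hφ hab
      refine Prod.ext ?_ h1
      ext i
      exact i.elim0
    · intro g hg
      obtain ⟨a, ha⟩ := hmem g (hSS' g hg)
      exact ⟨(1, a), ha⟩
    · intro a b ha hb hab
      have h1 := hsub _ ha _ hb
      exact Prod.ext hab (hφ h1)
  · obtain ⟨f0, hf0⟩ := Finset.nonempty_iff_ne_empty.2 hDe
    -- the kernels of the projections
    set pr : (j : Fin k) → ((i : Fin k) → alternatingGroup (Fin (n i))) × K →*
        alternatingGroup (Fin (n j)) := fun j =>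
      (Pi.evalMonoidHom (fun i => alternatingGroup (Fin (n i))) j).comp (MonoidHom.fst _ _)
      with hpr
    have hj : ∃ j : Fin k, ∀ a, φ a ∈ D → a.1 j ≠ 1 := by
      by_contra hcon
      push Not at hcon
      -- every element of `D` has all components trivial
      obtain ⟨a0, ha0⟩ := hmem f0 (hDS' f0 hf0)
      have h1 : a0.1 = 1 := by
        funext j
        obtain ⟨a, haD, haj⟩ := hcon j
        have hN := hT (φ a) f0 (hD1 _ haD) φ.range ((pr j).ker.map φ) (by
            intro t ht
            exact hmem t (hTS' _ haD _ hf0 t ht)) (by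
            rintro m ⟨b, hb, rfl⟩ g ⟨c, rfl⟩
            refine ⟨c * b * c⁻¹, ?_, by simp⟩
            exact (MonoidHom.normal_ker (pr j)).conj_mem b hb c) ⟨a, haj, rfl⟩
        obtain ⟨b, hb, hbf⟩ := hN
        have h2 : b = a0 := hφ (hbf.trans ha0.symm)
        rw [← h2]
        exact hb
      have h2 : a0 = 1 := by
        apply hsep a0 1
        · rw [ha0]
          exact hDS' f0 hf0
        · rw [map_one]
          exact h1S'
        · exact h1
      rw [h2, map_one] at ha0
      exact hD1 f0 hf0 ha0.symm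
    obtain ⟨j, hj⟩ := hj
    -- the factor `j` and the kernel of the projection to it
    set inc : alternatingGroup (Fin (n j)) →*
        ((i : Fin k) → alternatingGroup (Fin (n i))) × K :=
      (MonoidHom.inl _ _).comp (MonoidHom.mulSingle (fun i => alternatingGroup (Fin (n i))) j)
      with hinc
    have hcomm : ∀ (σ : alternatingGroup (Fin (n j))) (b : (pr j).ker),
        Commute (inc σ) ((pr j).ker.subtype b) := by
      rintro σ ⟨b, hb⟩
      change inc σ * b = b * inc σ
      have hbj : b.1 j = 1 := hb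
      refine Prod.ext ?_ ?_
      · funext i
        change (Pi.mulSingle j σ : (i : Fin k) → alternatingGroup (Fin (n i))) i * b.1 i =
          b.1 i * (Pi.mulSingle j σ : (i : Fin k) → alternatingGroup (Fin (n i))) i
        by_cases hi : i = j
        · subst hi
          rw [hbj, mul_one, one_mul]
        · rw [Pi.mulSingle_eq_of_ne hi, mul_one, one_mul]
      · change 1 * b.2 = b.2 * 1
        rw [mul_one, one_mul]
    set ψ : alternatingGroup (Fin (n j)) × (pr j).ker →*
        ((i : Fin k) → alternatingGroup (Fin (n i))) × K :=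
      MonoidHom.noncommCoprod inc (pr j).ker.subtype hcomm with hψ
    have hψa : ∀ a, ψ a = inc a.1 * (a.2 : ((i : Fin k) → alternatingGroup (Fin (n i))) × K) :=
      fun a => rfl
    have hincj : ∀ σ, (inc σ).1 j = σ := by
      intro σ
      change (Pi.mulSingle j σ : (i : Fin k) → alternatingGroup (Fin (n i))) j = σ
      rw [Pi.mulSingle_eq_same]
    have hψj : ∀ a, (ψ a).1 j = a.1 := by
      intro a
      rw [hψa]
      change (inc a.1).1 j *
        (a.2 : ((i : Fin k) → alternatingGroup (Fin (n i))) × K).1 j = a.1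
      have h1 : (a.2 : ((i : Fin k) → alternatingGroup (Fin (n i))) × K).1 j = 1 := a.2.2
      rw [h1, mul_one, hincj]
    have hψinj : Function.Injective ψ := by
      intro a b hab
      have h1 : a.1 = b.1 := by rw [← hψj a, ← hψj b, hab]
      refine Prod.ext h1 ?_
      rw [hψa, hψa, h1] at hab
      exact Subtype.ext (mul_left_cancel hab)
    refine ⟨{ n := n j, K := (pr j).ker, φ := φ.comp ψ, inj := hφ.comp hψinj,
              mem := ?_, sep := ?_ }⟩
    · intro g hg
      obtain ⟨a, ha⟩ := hmem g (hSS' g hg)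
      have hk : (inc (a.1 j))⁻¹ * a ∈ (pr j).ker := by
        rw [MonoidHom.mem_ker, map_mul, map_inv]
        change ((inc (a.1 j)).1 j)⁻¹ * a.1 j = 1
        rw [hincj, inv_mul_cancel]
      refine ⟨(a.1 j, ⟨_, hk⟩), ?_⟩
      rw [MonoidHom.comp_apply, hψa]
      simp only
      rw [mul_inv_cancel_left, ha]
    · intro a b ha hb hab
      by_contra hne
      have h1 : φ (ψ a) * (φ (ψ b))⁻¹ ≠ 1 := by
        intro h2
        rw [mul_inv_eq_one] at h2
        exact hne (hψinj (hφ h2))
      have h2 := hDm _ ha _ hb h1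
      have h3 : φ (ψ a) * (φ (ψ b))⁻¹ = φ (ψ a * (ψ b)⁻¹) := by rw [map_mul, map_inv]
      have h4 := hj (ψ a * (ψ b)⁻¹) (by rw [← h3]; exact h2)
      apply h4
      change (ψ a).1 j * ((ψ b).1 j)⁻¹ = 1
      rw [hψj, hψj, hab, mul_inv_cancel]

end Pool.Agent.Lib.MP_b9166b_al
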